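import Pool.Agent.W_MP_96b415_co.Chang
import Pool.Agent.W_MP_96b415_co.GapLemmas

/-! Points of a generalized arithmetic progression on an arbitrary hyperbola
`(I - a) (J - b) = c`, `c ≠ 0`: a divisor bound with arbitrary complex `a, b, c`. -/

set_option autoImplicit false

namespace Pool.Agent.W_96b415_h42

open Pool.Agent.W_MP_96b415_co

/-- Divisor bound for hyperbolas with arbitrary centre. Subtract one solution; two further solutions
determine the centre by Cramer's rule, so that after multiplication by the determinant both factors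
lie in the progression of the products of three generators. -/
theorem hyp_bound (ι : Type) [Fintype ι] (ε : ℝ) (hε : 0 < ε) :
    ∃ C : ℝ, 0 < C ∧ ∀ N : ℝ, 1 ≤ N → ∀ g : ι → ℂ, ∀ a b c : ℂ, c ≠ 0 → ∀ S : Finset (ℂ × ℂ),
      (∀ u ∈ S, u.1 ∈ gap g N ∧ u.2 ∈ gap g N ∧ (u.1 - a) * (u.2 - b) = c) →
      (S.card : ℝ) ≤ C * N ^ ε := by
  classical
  obtain ⟨C, hC, hdiv⟩ := gap_div_bound ((ι × ι) × ι) (ε / 3) (by positivity)
  refine ⟨C * 32 ^ (ε / 3) + 2, by positivity, ?_⟩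
  intro N hN g a b c hc S hS
  have hNε : (1 : ℝ) ≤ N ^ ε := Real.one_le_rpow hN hε.le
  have h32 : (0 : ℝ) ≤ C * 32 ^ (ε / 3) := by positivity
  -- few solutions
  rcases le_or_gt S.card 2 with hcard | hcard
  · have h1 : (S.card : ℝ) ≤ 2 := by exact_mod_cast hcard
    nlinarith
  obtain ⟨u0, u1, u2, h0, h1, h2, n01, n02, n12⟩ := Finset.two_lt_card_iff.1 hcard
  obtain ⟨g0, k0, e0⟩ := hS u0 h0
  -- differences
  have hN0 : (0 : ℝ) ≤ N := by linarith
  have hdiff : ∀ u ∈ S, u.1 - u0.1 ∈ gap g (2 * N) ∧ u.2 - u0.2 ∈ gap g (2 * N) := by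
    intro u hu
    obtain ⟨m1, m2, -⟩ := hS u hu
    refine ⟨?_, ?_⟩
    · rw [two_mul]; exact gap_sub g m1 g0
    · rw [two_mul]; exact gap_sub g m2 k0
  set α : ℂ := a - u0.1 with hα
  set β : ℂ := b - u0.2 with hβ
  have hαβ : α * β = c := by rw [hα, hβ, ← e0]; ring
  have hα0 : α ≠ 0 := by
    intro h; rw [h, zero_mul] at hαβ; exact hc hαβ.symm
  have hβ0 : β ≠ 0 := by
    intro h; rw [h, mul_zero] at hαβ; exact hc hαβ.symm
  have hrel : ∀ u ∈ S, (u.1 - u0.1) * (u.2 - u0.2)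
      = β * (u.1 - u0.1) + α * (u.2 - u0.2) := by
    intro u hu
    obtain ⟨-, -, e⟩ := hS u hu
    have h3 : (u.1 - a) * (u.2 - b) = (u0.1 - a) * (u0.2 - b) := by rw [e, e0]
    rw [hα, hβ]
    linear_combination h3
  have hne : ∀ u ∈ S, u ≠ u0 → u.1 - u0.1 ≠ 0 ∧ u.2 - u0.2 ≠ 0 := by
    intro u hu hun
    have h3 := hrel u hu
    constructor
    · intro h4
      rw [h4, zero_mul, mul_zero, zero_add] at h3
      have h5 : u.2 - u0.2 = 0 := by
        rcases mul_eq_zero.1 h3.symm with h | h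
        · exact absurd h hα0
        · exact h
      exact hun (Prod.ext (sub_eq_zero.1 h4) (sub_eq_zero.1 h5))
    · intro h4
      rw [h4, mul_zero, mul_zero, add_zero] at h3
      have h5 : u.1 - u0.1 = 0 := by
        rcases mul_eq_zero.1 h3.symm with h | h
        · exact absurd h hβ0
        · exact h
      exact hun (Prod.ext (sub_eq_zero.1 h5) (sub_eq_zero.1 h4))
  obtain ⟨I1n, J1n⟩ := hne u1 h1 n01.symm
  obtain ⟨I2n, J2n⟩ := hne u2 h2 n02.symm
  have r1 := hrel u1 h1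
  have r2 := hrel u2 h2
  set I1 := u1.1 - u0.1 with hI1
  set J1 := u1.2 - u0.2 with hJ1
  set I2 := u2.1 - u0.1 with hI2
  set J2 := u2.2 - u0.2 with hJ2
  set Δ : ℂ := J1 * I2 - J2 * I1 with hΔ
  set A : ℂ := I1 * I2 * (J1 - J2) with hA
  set B : ℂ := J1 * J2 * (I2 - I1) with hB
  have hαΔ : α * Δ = A := by
    rw [hΔ, hA]
    linear_combination I1 * r2 - I2 * r1
  have hβΔ : β * Δ = B := by
    rw [hΔ, hB]
    linear_combination J2 * r1 - J1 * r2
  have hΔ0 : Δ ≠ 0 := by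
    intro h
    rw [h, mul_zero] at hαΔ hβΔ
    have h3 : J1 - J2 = 0 := by
      rcases mul_eq_zero.1 (hA ▸ hαΔ.symm : I1 * I2 * (J1 - J2) = 0) with h' | h'
      · exact absurd h' (mul_ne_zero I1n I2n)
      · exact h'
    have h4 : I2 - I1 = 0 := by
      rcases mul_eq_zero.1 (hB ▸ hβΔ.symm : J1 * J2 * (I2 - I1) = 0) with h' | h'
      · exact absurd h' (mul_ne_zero J1n J2n)
      · exact h'
    apply n12
    apply Prod.ext
    · have : u2.1 = u1.1 := by
        have h5 : (u2.1 - u0.1) - (u1.1 - u0.1) = 0 := h4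
        linear_combination h5
      exact this.symm
    · have h5 : (u1.2 - u0.2) - (u2.2 - u0.2) = 0 := h3
      linear_combination h5
  -- membership of the factors
  set G : (ι × ι) × ι → ℂ := fun p => (g p.1.1 * g p.1.2) * g p.2 with hG
  have mI1 := (hdiff u1 h1).1
  have mJ1 := (hdiff u1 h1).2
  have mI2 := (hdiff u2 h2).1
  have mJ2 := (hdiff u2 h2).2
  have mΔ : Δ ∈ gap (fun ij : ι × ι => g ij.1 * g ij.2) (8 * N ^ 2) := by
    have h3 := gap_sub _ (gap_mul g g mJ1 mI2) (gap_mul g g mJ2 mI1)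
    refine gap_mono _ (le_of_eq (by ring)) h3
  have mA : A ∈ gap G (16 * N ^ 3) := by
    have h3 := gap_mul (fun ij : ι × ι => g ij.1 * g ij.2) g (gap_mul g g mI1 mI2)
      (gap_sub g mJ1 mJ2)
    exact gap_mono _ (le_of_eq (by ring)) h3
  have mB : B ∈ gap G (16 * N ^ 3) := by
    have h3 := gap_mul (fun ij : ι × ι => g ij.1 * g ij.2) g (gap_mul g g mJ1 mJ2)
      (gap_sub g mI2 mI1)
    exact gap_mono _ (le_of_eq (by ring)) h3
  have mI : ∀ z : ℂ, z ∈ gap g (2 * N) → Δ * z ∈ gap G (16 * N ^ 3) := by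
    intro z hz
    have h3 := gap_mul (fun ij : ι × ι => g ij.1 * g ij.2) g mΔ hz
    exact gap_mono _ (le_of_eq (by ring)) h3
  -- the divisor bound
  have hinj : Set.InjOn (fun u : ℂ × ℂ => Δ * (u.1 - u0.1) - A) (S : Set (ℂ × ℂ)) := by
    intro u hu v hv huv
    obtain ⟨-, -, eu⟩ := hS u hu
    obtain ⟨-, -, ev⟩ := hS v hv
    have h3 : Δ * (u.1 - u0.1) - A = Δ * (v.1 - u0.1) - A := huv
    have h4 : u.1 = v.1 := by
      have h5 : Δ * u.1 = Δ * v.1 := by linear_combination h3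
      exact mul_left_cancel₀ hΔ0 h5
    have h6 : u.1 - a ≠ 0 := by
      intro h; rw [h, zero_mul] at eu; exact hc eu.symm
    have h7 : (u.1 - a) * (u.2 - b) = (u.1 - a) * (v.2 - b) := by rw [eu, ← ev, h4]
    have h8 := mul_left_cancel₀ h6 h7
    exact Prod.ext h4 (by linear_combination h8)
  rw [← Finset.card_image_of_injOn hinj]
  have h32N : (1 : ℝ) ≤ 32 * N ^ 3 := by
    have : (1 : ℝ) ≤ N ^ 3 := one_le_pow₀ hN
    linarith
  have hfin := hdiv (32 * N ^ 3) h32N G (Δ ^ 2 * c) (mul_ne_zero (pow_ne_zero 2 hΔ0) hc)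
    (S.image (fun u : ℂ × ℂ => Δ * (u.1 - u0.1) - A)) (by
      intro z hz
      obtain ⟨u, hu, rfl⟩ := Finset.mem_image.1 hz
      obtain ⟨d1, d2⟩ := hdiff u hu
      obtain ⟨-, -, eu⟩ := hS u hu
      refine ⟨gap_mono _ (le_of_eq (by ring)) (gap_sub G (mI _ d1) mA),
        Δ * (u.2 - u0.2) - B, gap_mono _ (le_of_eq (by ring)) (gap_sub G (mI _ d2) mB), ?_⟩
      rw [← hαΔ, ← hβΔ, hα, hβ, ← eu]
      ring)
  refine hfin.trans ?_
  have e3 : (32 * N ^ 3 : ℝ) ^ (ε / 3) = 32 ^ (ε / 3) * N ^ ε := by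
    rw [Real.mul_rpow (by norm_num) (by positivity)]
    congr 1
    rw [← Real.rpow_natCast N 3, ← Real.rpow_mul hN0]
    congr 1
    push_cast; ring
  rw [e3]
  nlinarith

end Pool.Agent.W_96b415_h42
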