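import Pool.Agent.W_MP_96b415_co.Line

/-! The energy argument for points on a line, with an arbitrary second set. -/

set_option autoImplicit false

namespace Pool.Agent.W_96b415_h42

open ComplexConjugate Pool.Agent.W_MP_96b415_co

/-- If `X` lies on the line through `q₀` with direction `w` and, for all `p, p'` in `P`, every nonzero
`c` has at most `T` representations `c = u ^ 2 - u' ^ 2` with `u = s_p - 2 x*`, `u' = s_p' - 2 x*'`,
`x, x'` in `X`, then the set of squared distances between `P` and `X` is large. -/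
theorem line_energy_pair (P X : Finset ℂ) (q₀ w : ℂ) (hw : w ≠ 0)
    (hX : ∀ x ∈ X, conj ((x - q₀) * conj w) = (x - q₀) * conj w) (T : ℕ)
    (hT : ∀ p ∈ P, ∀ p' ∈ P, ∀ c : ℂ, c ≠ 0 → ∀ S : Finset (ℂ × ℂ),
      (∀ u ∈ S, (∃ x ∈ X, u.1 = (p - q₀) * conj w + conj ((p - q₀) * conj w)
          - 2 * ((x - q₀) * conj w)) ∧
        (∃ x ∈ X, u.2 = (p' - q₀) * conj w + conj ((p' - q₀) * conj w)
          - 2 * ((x - q₀) * conj w)) ∧ (u.1 - u.2) * (u.1 + u.2) = c) → S.card ≤ T) :
    (P.card * X.card) ^ 2 ≤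
      ((P ×ˢ X).image (fun q : ℂ × ℂ => Complex.normSq (q.1 - q.2))).card *
        (4 * P.card * X.card ^ 2 + T * P.card ^ 2) := by
  classical
  obtain ⟨A, hA⟩ : ∃ A : ℂ → ℂ, A = fun z => (z - q₀) * conj w := ⟨_, rfl⟩
  have hAd : ∀ z, (z - q₀) * conj w = A z := fun z => by rw [hA]
  simp only [hAd] at hX hT
  have hcw : conj w ≠ 0 := by
    rw [Ne, map_eq_zero]; exact hw
  have hAinj : Function.Injective A := by
    intro a b h
    rw [hA] at h
    have h' := mul_right_cancel₀ hcw h
    simpa using h'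
  -- the key identity
  have key : ∀ p x, x ∈ X → 4 * (Complex.normSq w : ℂ) * (Complex.normSq (p - x) : ℂ)
      = (A p + conj (A p) - 2 * A x) ^ 2 - (A p - conj (A p)) ^ 2 := by
    intro p x hx
    have h1 : conj (A x) = A x := hX x hx
    have h2 : A p - A x = (p - x) * conj w := by rw [hA]; ring
    have h3 : conj (A p) - A x = conj (p - x) * w := by
      have h4 : conj (A p - A x) = conj (p - x) * w := by
        rw [h2, map_mul, Complex.conj_conj]
      rw [map_sub, h1] at h4
      exact h4
    have h5 : (Complex.normSq (p - x) : ℂ) = conj (p - x) * (p - x) :=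
      Complex.normSq_eq_conj_mul_self
    have h6 : (Complex.normSq w : ℂ) = conj w * w := Complex.normSq_eq_conj_mul_self
    have h7 : (A p + conj (A p) - 2 * A x) ^ 2 - (A p - conj (A p)) ^ 2
        = 4 * (A p - A x) * (conj (A p) - A x) := by ring
    rw [h7, h2, h3, h5, h6]
    ring
  set F : ℂ × ℂ → ℝ := fun q : ℂ × ℂ => Complex.normSq (q.1 - q.2) with hF
  have hCS := sq_card_le_card_image_mul (P ×ˢ X) F
  rw [Finset.card_product] at hCS
  refine hCS.trans (Nat.mul_le_mul_left _ ?_)
  -- split the quadruples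
  set Q := (((P ×ˢ X) ×ˢ (P ×ˢ X)).filter (fun q => F q.1 = F q.2)) with hQ
  have hQmem : ∀ q ∈ Q, (q.1.1 ∈ P ∧ q.1.2 ∈ X) ∧ (q.2.1 ∈ P ∧ q.2.2 ∈ X) ∧
      (A q.1.1 + conj (A q.1.1) - 2 * A q.1.2) ^ 2 - (A q.1.1 - conj (A q.1.1)) ^ 2 =
      (A q.2.1 + conj (A q.2.1) - 2 * A q.2.2) ^ 2 - (A q.2.1 - conj (A q.2.1)) ^ 2 := by
    intro q hq
    obtain ⟨hq1, hq2⟩ := Finset.mem_filter.1 hq
    obtain ⟨h1, h2⟩ := Finset.mem_product.1 hq1
    have h1' := Finset.mem_product.1 h1
    have h2' := Finset.mem_product.1 h2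
    refine ⟨h1', h2', ?_⟩
    rw [← key _ _ h1'.2, ← key _ _ h2'.2]
    have : F q.1 = F q.2 := hq2
    simp only [hF] at this
    rw [this]
  set R : (ℂ × ℂ) × (ℂ × ℂ) → Prop := fun q =>
    (A q.1.1 - conj (A q.1.1)) ^ 2 = (A q.2.1 - conj (A q.2.1)) ^ 2 with hR
  have hsplit : Q.card = (Q.filter R).card + (Q.filter (fun q => ¬ R q)).card := by
    rw [Finset.card_filter_add_card_filter_not]
  rw [hsplit]
  refine Nat.add_le_add ?_ ?_
  · -- first part
    have hmap : (Q.filter R).card ≤
        ((P ×ˢ (X ×ˢ X)) ×ˢ (Finset.univ : Finset (Bool × Bool))).card := by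
      refine Finset.card_le_card_of_injOn
        (fun q => ((q.1.1, (q.1.2, q.2.2)),
          (decide (A q.2.1 + conj (A q.2.1) - 2 * A q.2.2 = A q.1.1 + conj (A q.1.1) - 2 * A q.1.2),
           decide (A q.2.1 - conj (A q.2.1) = A q.1.1 - conj (A q.1.1))))) ?_ ?_
      · intro q hq
        have hq' := hQmem q (Finset.mem_filter.1 (Finset.mem_coe.1 hq)).1
        exact Finset.mem_coe.2 (Finset.mem_product.2 ⟨Finset.mem_product.2 ⟨hq'.1.1,
          Finset.mem_product.2 ⟨hq'.1.2, hq'.2.1.2⟩⟩, Finset.mem_univ _⟩)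
      · intro q hq r hr hqr
        obtain ⟨hq1, hq2⟩ := Finset.mem_filter.1 (Finset.mem_coe.1 hq)
        obtain ⟨hr1, hr2⟩ := Finset.mem_filter.1 (Finset.mem_coe.1 hr)
        obtain ⟨-, -, eq1⟩ := hQmem q hq1
        obtain ⟨-, -, er1⟩ := hQmem r hr1
        have hq2' : (A q.1.1 - conj (A q.1.1)) ^ 2 = (A q.2.1 - conj (A q.2.1)) ^ 2 := hq2
        have hr2' : (A r.1.1 - conj (A r.1.1)) ^ 2 = (A r.2.1 - conj (A r.2.1)) ^ 2 := hr2
        simp only [Prod.mk.injEq] at hqr
        obtain ⟨⟨e1, e2, e3⟩, e4, e5⟩ := hqr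
        have e4' := decide_eq_decide.1 e4
        have e5' := decide_eq_decide.1 e5
        obtain ⟨⟨p, x⟩, ⟨p2, x2⟩⟩ := q
        obtain ⟨⟨p', x'⟩, ⟨p2', x2'⟩⟩ := r
        simp only at e1 e2 e3 e4' e5' eq1 er1 hq2' hr2'
        subst e1 e2 e3
        rw [hq2'] at eq1
        rw [hr2'] at er1
        have equ : (A p + conj (A p) - 2 * A x) ^ 2
            = (A p2 + conj (A p2) - 2 * A x2) ^ 2 := by
          have := eq1
          linear_combination this
        have eru : (A p + conj (A p) - 2 * A x) ^ 2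
            = (A p2' + conj (A p2') - 2 * A x2) ^ 2 := by
          have := er1
          linear_combination this
        -- the two values of `u` agree
        have hu : A p2 + conj (A p2) - 2 * A x2 = A p2' + conj (A p2') - 2 * A x2 := by
          rcases sq_eq_sq_iff_eq_or_eq_neg.1 equ with h | h
          · have := e4'.1 h.symm
            rw [← h, this]
          · rcases sq_eq_sq_iff_eq_or_eq_neg.1 eru with h' | h'
            · have := e4'.2 h'.symm
              rw [this, h']
            · have := h.symm.trans h'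
              exact neg_injective this
        have hd : A p2 - conj (A p2) = A p2' - conj (A p2') := by
          rcases sq_eq_sq_iff_eq_or_eq_neg.1 hq2' with h | h
          · have := e5'.1 h.symm
            rw [← h, this]
          · rcases sq_eq_sq_iff_eq_or_eq_neg.1 hr2' with h' | h'
            · have := e5'.2 h'.symm
              rw [this, h']
            · have := h.symm.trans h'
              exact neg_injective this
        have hA2 : A p2 = A p2' := by linear_combination (hu + hd) / 2
        have := hAinj hA2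
        rw [this]
    refine hmap.trans (le_of_eq ?_)
    rw [Finset.card_product, Finset.card_product, Finset.card_product]
    simp only [Finset.card_univ, Fintype.card_prod, Fintype.card_bool]
    ring
  · -- second part
    have hmaps : ∀ q ∈ Q.filter (fun q => ¬ R q), (q.1.1, q.2.1) ∈ P ×ˢ P := by
      intro q hq
      have hq' := hQmem q (Finset.mem_filter.1 hq).1
      exact Finset.mem_product.2 ⟨hq'.1.1, hq'.2.1.1⟩
    have := Finset.card_le_mul_card_image_of_maps_to (f := fun q : (ℂ × ℂ) × (ℂ × ℂ) =>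
      (q.1.1, q.2.1)) hmaps T ?_
    · refine this.trans (le_of_eq ?_)
      rw [Finset.card_product]
      ring
    · rintro ⟨p, p2⟩ hpp
      obtain ⟨hp, hp2⟩ := Finset.mem_product.1 hpp
      simp only at hp hp2
      by_cases hc : (A p - conj (A p)) ^ 2 = (A p2 - conj (A p2)) ^ 2
      · -- empty fibre
        have : (Q.filter (fun q => ¬ R q)).filter (fun q => (q.1.1, q.2.1) = (p, p2)) = ∅ := by
          rw [Finset.filter_eq_empty_iff]
          intro q hq hqe
          have hnR := (Finset.mem_filter.1 hq).2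
          simp only [Prod.mk.injEq] at hqe
          apply hnR
          simp only [hR]
          rw [hqe.1, hqe.2]
          exact hc
        rw [this]
        simp
      · have hc' : (A p - conj (A p)) ^ 2 - (A p2 - conj (A p2)) ^ 2 ≠ 0 := sub_ne_zero.2 hc
        set S := ((Q.filter (fun q => ¬ R q)).filter
          (fun q => (q.1.1, q.2.1) = (p, p2))).image
            (fun q : (ℂ × ℂ) × (ℂ × ℂ) =>
              (A q.1.1 + conj (A q.1.1) - 2 * A q.1.2, A q.2.1 + conj (A q.2.1) - 2 * A q.2.2))
          with hS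
        have hcard : S.card = ((Q.filter (fun q => ¬ R q)).filter
          (fun q => (q.1.1, q.2.1) = (p, p2))).card := by
          apply Finset.card_image_of_injOn
          intro q hq r hr hqr
          have hq2 := (Finset.mem_filter.1 (Finset.mem_coe.1 hq)).2
          have hr2 := (Finset.mem_filter.1 (Finset.mem_coe.1 hr)).2
          obtain ⟨⟨p1, x1⟩, ⟨p3, x3⟩⟩ := q
          obtain ⟨⟨p1', x1'⟩, ⟨p3', x3'⟩⟩ := r
          simp only [Prod.mk.injEq] at hq2 hr2 hqr
          obtain ⟨rfl, rfl⟩ := hq2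
          obtain ⟨rfl, rfl⟩ := hr2
          have h1 : A x1 = A x1' := by linear_combination (-1/2) * hqr.1
          have h2 : A x3 = A x3' := by linear_combination (-1/2) * hqr.2
          rw [hAinj h1, hAinj h2]
        rw [← hcard]
        apply hT p hp p2 hp2 _ hc'
        intro u hu
        obtain ⟨q, hq, rfl⟩ := Finset.mem_image.1 hu
        obtain ⟨hq1, hq2⟩ := Finset.mem_filter.1 hq
        obtain ⟨h1, h2, h3⟩ := hQmem q (Finset.mem_filter.1 hq1).1
        simp only [Prod.mk.injEq] at hq2
        refine ⟨⟨q.1.2, h1.2, by rw [← hq2.1]⟩, ⟨q.2.2, h2.2, by rw [← hq2.2]⟩, ?_⟩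
        simp only
        rw [← hq2.1, ← hq2.2]
        linear_combination h3

end Pool.Agent.W_96b415_h42
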