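import Pool.Agent.W_96b415_h42.Frei
import Pool.Agent.W_96b415_h42.MainS
import Pool.Agent.W_626a77_h79.EnergyA

/-!
# Subsets of small doubling or large additive energy on a curve
-/

set_option autoImplicit false

open scoped Pointwise

namespace Pool.Agent.W_96b415_h42

open MvPolynomial Pool.Agent.W_MP_96b415_co

/-- Subsets of small doubling. -/
theorem small_doubling (C K : ℝ) (d : ℕ) (ε : ℝ) (hε : 0 < ε) : ∃ M : ℝ, 0 < M ∧
    ∀ P : Finset (ℝ × ℝ), 2 ≤ P.card →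
    ((numDist P : ℝ) ≤ P.card / 6 ∨
      (numDist P : ℝ) ≤ C * (P.card : ℝ) / Real.sqrt (Real.log (P.card : ℝ))) →
    ∀ S : Finset (ℝ × ℝ), S ⊆ P → ((S + S).card : ℝ) ≤ K * S.card →
    ∀ f : MvPolynomial (Fin 2) ℝ, f ≠ 0 → f.totalDegree ≤ d →
      ((S.filter (fun x : ℝ × ℝ => eval ![x.1, x.2] f = 0)).card : ℝ)
        ≤ M * (P.card : ℝ) ^ ((1 : ℝ) / 2 + ε) := by
  classical
  obtain ⟨R, C1, hC1, hfr⟩ := freiman_plane K
  set a : ℝ := Real.log C1 / Real.log 2 with ha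
  have hl2 : 0 < Real.log 2 := Real.log_pos (by norm_num)
  have ha0 : 0 ≤ a := div_nonneg (Real.log_nonneg hC1) hl2.le
  obtain ⟨K6, hK6, hmain⟩ := mainS C (2 * (a + 1)) R d ε hε
  have hC10 : 0 < C1 := by linarith
  refine ⟨C1 * K6, mul_pos hC10 hK6, ?_⟩
  intro P hP hD S hSP hS f hf hfd
  set n : ℝ := (P.card : ℝ) with hn
  have hn2 : (2 : ℝ) ≤ n := by rw [hn]; exact_mod_cast hP
  have hn0 : 0 < n := by linarith
  have hC1n : C1 ≤ n ^ a := by
    calc C1 = (2 : ℝ) ^ a := by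
          rw [Real.rpow_def_of_pos (by norm_num), ha, mul_div_cancel₀ _ hl2.ne',
            Real.exp_log hC10]
      _ ≤ n ^ a := Real.rpow_le_rpow (by norm_num) hn2 ha0
  have hSn : (S.card : ℝ) ≤ n := by rw [hn]; exact_mod_cast Finset.card_le_card hSP
  have hpow : (C1 * S.card) ^ 2 ≤ n ^ (2 * (a + 1)) := by
    have h1 : C1 * S.card ≤ n ^ (a + 1) := by
      rw [Real.rpow_add hn0, Real.rpow_one]
      exact mul_le_mul hC1n hSn (by positivity) (by positivity)
    calc (C1 * S.card) ^ 2 ≤ (n ^ (a + 1)) ^ 2 := pow_le_pow_left₀ (by positivity) h1 2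
      _ = n ^ (2 * (a + 1)) := by
          rw [← Real.rpow_natCast, ← Real.rpow_mul hn0.le]
          congr 1
          push_cast; ring
  obtain ⟨T, W, hT, hcov, hW⟩ := hfr S hS
  have hpt : ∀ t ∈ T, ((((W t).filter (fun x : ℝ × ℝ => eval ![x.1, x.2] f = 0)).card : ℕ) : ℝ)
      ≤ K6 * n ^ ((1 : ℝ) / 2 + ε) := by
    intro t _
    exact hmain P hP hD (W t) ((hW t).1.trans hSP) (InGap.mono hpow (hW t).2) f hf hfd
  have hsub : S.filter (fun x : ℝ × ℝ => eval ![x.1, x.2] f = 0) ⊆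
      T.biUnion (fun t => (W t).filter (fun x : ℝ × ℝ => eval ![x.1, x.2] f = 0)) := by
    intro x hx
    rw [Finset.mem_filter] at hx
    obtain ⟨t, ht, hxt⟩ := hcov x hx.1
    rw [Finset.mem_biUnion]
    exact ⟨t, ht, Finset.mem_filter.2 ⟨hxt, hx.2⟩⟩
  have h1 : ((S.filter (fun x : ℝ × ℝ => eval ![x.1, x.2] f = 0)).card : ℝ) ≤
      ∑ t ∈ T, ((((W t).filter (fun x : ℝ × ℝ => eval ![x.1, x.2] f = 0)).card : ℕ) : ℝ) := by
    exact_mod_cast (Finset.card_le_card hsub).trans Finset.card_biUnion_le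
  calc _ ≤ _ := h1
    _ ≤ ∑ t ∈ T, K6 * n ^ ((1 : ℝ) / 2 + ε) := Finset.sum_le_sum hpt
    _ = T.card * (K6 * n ^ ((1 : ℝ) / 2 + ε)) := by rw [Finset.sum_const, nsmul_eq_mul]
    _ ≤ C1 * (K6 * n ^ ((1 : ℝ) / 2 + ε)) := mul_le_mul_of_nonneg_right hT (by positivity)
    _ = C1 * K6 * n ^ ((1 : ℝ) / 2 + ε) := by ring

/-- additive energy: the number of quadruples with `a - b = c - d` -/
noncomputable def energy (S : Finset (ℝ × ℝ)) : ℕ :=
  (((S ×ˢ S) ×ˢ (S ×ˢ S)).filter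
    (fun q : ((ℝ × ℝ) × (ℝ × ℝ)) × ((ℝ × ℝ) × (ℝ × ℝ)) => q.1.1 - q.1.2 = q.2.1 - q.2.2)).card

/-- Popular differences: large energy gives the hypotheses of the theorem of Balog, Szemeredi and
Gowers. -/
theorem popular (S : Finset (ℝ × ℝ)) (K : ℝ) (hK : 0 < K)
    (h : (S.card : ℝ) ^ 3 ≤ K * energy S) :
    ∃ D : Finset (ℝ × ℝ),
      (S.card : ℝ) ^ 2 ≤ 2 * K * (((S ×ˢ S).filter (fun p => p.1 - p.2 ∈ D)).card : ℝ) ∧
      (D.card : ℝ) ≤ 2 * K * S.card := by
  classical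
  rcases S.eq_empty_or_nonempty with rfl | hne
  · exact ⟨∅, by simp, by simp⟩
  set n : ℝ := (S.card : ℝ) with hn
  have hn0 : 0 < n := by rw [hn]; exact_mod_cast hne.card_pos
  set r : ℝ × ℝ → ℕ := fun x => ((S ×ˢ S).filter (fun p => p.1 - p.2 = x)).card with hr
  set X := (S ×ˢ S).image (fun p => p.1 - p.2) with hX
  set D := X.filter (fun x => n / (2 * K) ≤ r x) with hD
  have hrn : ∀ x, (r x : ℝ) ≤ n := by
    intro x
    have h1 : r x ≤ S.card := by
      refine Finset.card_le_card_of_injOn (fun p => p.1) ?_ ?_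
      · intro p hp
        exact (Finset.mem_product.1 (Finset.mem_filter.1 hp).1).1
      · intro p hp q hq hpq
        have e1 := (Finset.mem_filter.1 hp).2
        have e2 := (Finset.mem_filter.1 hq).2
        have e3 : p.1 = q.1 := hpq
        refine Prod.ext e3 ?_
        rw [← e2, e3] at e1
        exact sub_right_inj.1 e1
    rw [hn]; exact_mod_cast h1
  have hsum : ∑ x ∈ X, (r x : ℝ) = n ^ 2 := by
    have h1 : (S ×ˢ S).card = ∑ x ∈ X, r x := Finset.card_eq_sum_card_image _ _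
    rw [Finset.card_product] at h1
    rw [hn, sq]
    exact_mod_cast h1.symm
  have hen : (energy S : ℝ) = ∑ x ∈ X, (r x : ℝ) ^ 2 := by
    have h1 : energy S = ∑ x ∈ X, r x ^ 2 := by
      unfold energy
      rw [Finset.card_eq_sum_card_fiberwise (f := fun q : ((ℝ × ℝ) × (ℝ × ℝ)) × _ =>
        q.1.1 - q.1.2) (t := X)]
      · refine Finset.sum_congr rfl fun x _ => ?_
        rw [sq, hr, ← Finset.card_product]
        congr 1
        ext ⟨p, q⟩
        simp only [Finset.mem_filter, Finset.mem_product]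
        constructor
        · rintro ⟨⟨⟨hp, hq⟩, hpq⟩, hx⟩
          exact ⟨⟨hp, hx⟩, hq, by rw [← hpq]; exact hx⟩
        · rintro ⟨⟨hp, hx⟩, hq, hx'⟩
          exact ⟨⟨⟨hp, hq⟩, by rw [hx, hx']⟩, hx⟩
      · intro q hq
        have hq' := (Finset.mem_filter.1 (Finset.mem_coe.1 hq)).1
        exact Finset.mem_coe.2 (Finset.mem_image_of_mem (fun p : (ℝ × ℝ) × (ℝ × ℝ) => p.1 - p.2)
          (Finset.mem_product.1 hq').1)
    rw [h1]
    push_cast
    rfl
  refine ⟨D, ?_, ?_⟩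
  · have h1 : (((S ×ˢ S).filter (fun p => p.1 - p.2 ∈ D)).card : ℝ) = ∑ x ∈ D, (r x : ℝ) := by
      have h2 : ((S ×ˢ S).filter (fun p => p.1 - p.2 ∈ D)).card = ∑ x ∈ D, r x := by
        rw [Finset.card_eq_sum_card_fiberwise (f := fun p : (ℝ × ℝ) × (ℝ × ℝ) => p.1 - p.2)
          (t := D)]
        · refine Finset.sum_congr rfl fun x hx => ?_
          rw [hr]
          congr 1
          ext p
          simp only [Finset.mem_filter]
          constructor
          · rintro ⟨⟨hp, -⟩, hx'⟩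
            exact ⟨hp, hx'⟩
          · rintro ⟨hp, hx'⟩
            exact ⟨⟨hp, by rw [hx']; exact hx⟩, hx'⟩
        · intro p hp
          exact Finset.mem_coe.2 (Finset.mem_filter.1 (Finset.mem_coe.1 hp)).2
      exact_mod_cast h2
    rw [h1]
    -- split the energy
    have h2 : ∑ x ∈ X, (r x : ℝ) ^ 2 ≤ n * ∑ x ∈ D, (r x : ℝ) + n / (2 * K) * n ^ 2 := by
      rw [← Finset.sum_filter_add_sum_filter_not X (fun x => n / (2 * K) ≤ r x)]
      refine add_le_add ?_ ?_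
      · rw [← hD, Finset.mul_sum]
        refine Finset.sum_le_sum fun x _ => ?_
        rw [sq]
        exact mul_le_mul_of_nonneg_right (hrn x) (by positivity)
      · rw [← hsum, Finset.mul_sum]
        refine (Finset.sum_le_sum fun x hx => ?_ : _ ≤ ∑ x ∈ X.filter
          (fun x => ¬ n / (2 * K) ≤ r x), n / (2 * K) * (r x : ℝ)).trans
          (Finset.sum_le_sum_of_subset_of_nonneg (Finset.filter_subset _ _)
            fun x _ _ => by positivity)
        have h3 := (Finset.mem_filter.1 hx).2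
        rw [not_le] at h3
        rw [sq]
        exact mul_le_mul_of_nonneg_right h3.le (by positivity)
    rw [← hen] at h2
    have h3 : n ^ 3 ≤ K * (n * ∑ x ∈ D, (r x : ℝ) + n / (2 * K) * n ^ 2) :=
      h.trans (mul_le_mul_of_nonneg_left h2 hK.le)
    have h4 : K * (n * ∑ x ∈ D, (r x : ℝ) + n / (2 * K) * n ^ 2)
        = n * (K * ∑ x ∈ D, (r x : ℝ)) + n ^ 3 / 2 := by
      field_simp
    rw [h4] at h3
    have h5 : n * n ^ 2 ≤ n * (2 * K * ∑ x ∈ D, (r x : ℝ)) := by nlinarith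
    exact le_of_mul_le_mul_left h5 hn0
  · have h1 : (D.card : ℝ) * (n / (2 * K)) ≤ n ^ 2 := by
      rw [← hsum, ← nsmul_eq_mul, ← Finset.sum_const]
      refine (Finset.sum_le_sum fun x hx => ?_ : _ ≤ ∑ x ∈ D, (r x : ℝ)).trans
        (Finset.sum_le_sum_of_subset_of_nonneg (Finset.filter_subset _ _)
            fun x _ _ => by positivity)
      exact (Finset.mem_filter.1 hx).2
    have h2 : (D.card : ℝ) * n ≤ (2 * K * n) * n := by
      rw [mul_div_assoc', div_le_iff₀ (by positivity)] at h1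
      nlinarith
    exact le_of_mul_le_mul_right h2 hn0

/-- small differences give small doubling (Pluennecke) -/
theorem doubling_of_diff {S : Finset (ℝ × ℝ)} (hS : S.Nonempty) {K : ℝ} (hK : 0 ≤ K)
    (h4 : ((S - S).card : ℝ) ≤ K * S.card) : ((S + S).card : ℝ) ≤ K ^ 2 * S.card := by
  have hs0 : (0 : ℝ) < S.card := by exact_mod_cast hS.card_pos
  have h6 := Finset.pluennecke_ruzsa_inequality_nsmul_sub hS S 2
  rw [two_nsmul] at h6
  have h7 : ((S + S).card : ℝ) ≤ (((S - S).card : ℝ) / S.card) ^ 2 * S.card := by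
    have h8 : (((S + S).card : ℚ≥0) : ℝ) ≤
        ((((S - S).card : ℚ≥0) / S.card) ^ 2 * S.card : ℚ≥0) := by
      exact_mod_cast h6
    push_cast at h8
    exact h8
  refine h7.trans (mul_le_mul_of_nonneg_right (pow_le_pow_left₀ (by positivity) ?_ 2)
    hs0.le)
  rw [div_le_iff₀ hs0]
  exact h4

/-- Subsets of a curve with large additive energy. -/
theorem large_energy (C K : ℝ) (d : ℕ) (ε : ℝ) (hε : 0 < ε) : ∃ M : ℝ, 0 < M ∧
    ∀ P : Finset (ℝ × ℝ), 2 ≤ P.card →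
    ((numDist P : ℝ) ≤ P.card / 6 ∨
      (numDist P : ℝ) ≤ C * (P.card : ℝ) / Real.sqrt (Real.log (P.card : ℝ))) →
    ∀ S : Finset (ℝ × ℝ), S ⊆ P → (S.card : ℝ) ^ 3 ≤ K * energy S →
    ∀ f : MvPolynomial (Fin 2) ℝ, f ≠ 0 → f.totalDegree ≤ d →
      (∀ x ∈ S, eval ![x.1, x.2] f = 0) →
      (S.card : ℝ) ≤ M * (P.card : ℝ) ^ ((1 : ℝ) / 2 + ε) := by
  classical
  set J : ℝ := 2 * (|K| + 1) with hJ
  have hK1 : 0 < |K| + 1 := by positivity
  have hJ1 : 1 ≤ J := by rw [hJ]; linarith [abs_nonneg K]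
  obtain ⟨M, hM, hsm⟩ := small_doubling C ((4096 * J ^ 10) ^ 2) d ε hε
  refine ⟨4 * J * M, by positivity, ?_⟩
  intro P hP hD S hSP hS f hf hfd hSf
  have hn2 : (2 : ℝ) ≤ P.card := by exact_mod_cast hP
  rcases S.eq_empty_or_nonempty with rfl | hne
  · simp only [Finset.card_empty, Nat.cast_zero]
    positivity
  obtain ⟨D, h1, h2⟩ := popular S (|K| + 1) hK1 (hS.trans (mul_le_mul_of_nonneg_right
    (by linarith [le_abs_self K]) (by positivity)))
  obtain ⟨S', hS'S, hS'n, h3, h4⟩ := Pool.Agent.W_626a77_h79.bsg S D J hJ1 hne h1 h2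
  have h5 := doubling_of_diff hS'n (by positivity) h4
  have h6 := hsm P hP hD S' (hS'S.trans hSP) h5 f hf hfd
  have h7 : S'.filter (fun x : ℝ × ℝ => eval ![x.1, x.2] f = 0) = S' :=
    Finset.filter_true_of_mem fun x hx => hSf x (hS'S hx)
  rw [h7] at h6
  calc (S.card : ℝ) ≤ 4 * J * S'.card := h3
    _ ≤ 4 * J * (M * (P.card : ℝ) ^ ((1 : ℝ) / 2 + ε)) :=
        mul_le_mul_of_nonneg_left h6 (by positivity)
    _ = 4 * J * M * (P.card : ℝ) ^ ((1 : ℝ) / 2 + ε) := by ring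

end Pool.Agent.W_96b415_h42
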