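import Pool.Agent.W_96b415_h42.Core
import Pool.Agent.W_96b415_h42.Small

/-!
# Few distances and a large subset of small doubling

If `P` has a subset `Q` of small doubling with `6 D(P) ≤ |Q|`, then every curve contains few points
of `P` (not only of `Q`).
-/

set_option autoImplicit false

open scoped Pointwise

namespace Pool.Agent.W_96b415_h42

open MvPolynomial Pool.Agent.W_MP_96b415_co

theorem numDist_mono {P Q : Finset (ℝ × ℝ)} (h : Q ⊆ P) : numDist Q ≤ numDist P := by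
  unfold numDist
  exact Finset.card_le_card (Finset.image_subset_image (Finset.offDiag_mono h))

theorem numDist_pos {P : Finset (ℝ × ℝ)} (h : 2 ≤ P.card) : 1 ≤ numDist P := by
  unfold numDist
  obtain ⟨a, ha, b, hb, hab⟩ := Finset.one_lt_card.1 h
  exact Finset.card_pos.2 (Finset.Nonempty.image ⟨(a, b), Finset.mem_offDiag.2 ⟨ha, hb, hab⟩⟩ _)

theorem seen {P Q : Finset (ℝ × ℝ)} (h : Q ⊆ P) {x : ℝ × ℝ} (hx : x ∈ P) :
    (Q.image (fun q => nsq (x - q))).card ≤ numDist P + 1 := by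
  classical
  unfold numDist
  refine (Finset.card_le_card (t := insert 0 (P.offDiag.image (fun pq : (ℝ × ℝ) × (ℝ × ℝ) =>
    (pq.1.1 - pq.2.1) ^ 2 + (pq.1.2 - pq.2.2) ^ 2))) ?_).trans (Finset.card_insert_le _ _)
  intro t ht
  obtain ⟨q, hq, rfl⟩ := Finset.mem_image.1 ht
  by_cases hxq : x = q
  · subst hxq; simp [nsq]
  · exact Finset.mem_insert_of_mem (Finset.mem_image.2 ⟨(x, q),
      Finset.mem_offDiag.2 ⟨hx, h hq, hxq⟩, rfl⟩)

/-- small doubling gives a bound for `Q + (Q - Q) + (Q - Q)` -/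
theorem five {Q : Finset (ℝ × ℝ)} (hQ : Q.Nonempty) {K : ℝ} (hK : ((Q + Q).card : ℝ) ≤ K * Q.card) :
    ((Q + (Q - Q) + (Q - Q)).card : ℝ) ≤ K ^ 5 * Q.card := by
  classical
  have hq0 : (0 : ℝ) < Q.card := by exact_mod_cast hQ.card_pos
  have h1 := Finset.pluennecke_ruzsa_inequality_nsmul_sub_nsmul_add hQ Q 3 2
  have h2 : (3 • Q - 2 • Q) = Q + (Q - Q) + (Q - Q) := by
    rw [show (3 : ℕ) • Q = Q + Q + Q by rw [succ_nsmul, two_nsmul], two_nsmul]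
    simp only [sub_eq_add_neg, neg_add]
    ac_rfl
  rw [h2] at h1
  have h3 : ((Q + (Q - Q) + (Q - Q)).card : ℝ) ≤ (((Q + Q).card : ℝ) / Q.card) ^ 5 * Q.card := by
    have h8 : (((Q + (Q - Q) + (Q - Q)).card : ℚ≥0) : ℝ) ≤
        ((((Q + Q).card : ℚ≥0) / Q.card) ^ (3 + 2) * Q.card : ℚ≥0) := by
      exact_mod_cast h1
    push_cast at h8
    exact h8
  refine h3.trans (mul_le_mul_of_nonneg_right (pow_le_pow_left₀ (by positivity) ?_ 5) hq0.le)
  rw [div_le_iff₀ hq0]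
  exact hK

theorem log_le (ε : ℝ) (hε : 0 < ε) : ∃ C : ℝ, 0 < C ∧ ∀ m : ℕ, 1 ≤ m →
    ((Nat.log 2 m : ℝ) + 1) ≤ C * (m : ℝ) ^ ε := by
  have hl2 : 0 < Real.log 2 := Real.log_pos (by norm_num)
  have hc : 0 < ε * Real.log 2 := mul_pos hε hl2
  refine ⟨1 / (ε * Real.log 2) + 1, by positivity, ?_⟩
  intro m hm
  set l := Nat.log 2 m with hl
  have h1 : (2 : ℝ) ^ l ≤ m := by
    have h4 : 2 ^ l ≤ m := Nat.pow_log_le_self 2 (by omega)
    exact_mod_cast h4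
  have h2 : (1 : ℝ) + l * (ε * Real.log 2) ≤ ((2 : ℝ) ^ l) ^ ε := by
    have h3 : ((2 : ℝ) ^ l) ^ ε = Real.exp (l * (ε * Real.log 2)) := by
      rw [← Real.rpow_natCast, ← Real.rpow_mul (by norm_num), Real.rpow_def_of_pos (by norm_num)]
      congr 1; ring
    rw [h3]
    have := Real.add_one_le_exp ((l : ℝ) * (ε * Real.log 2))
    linarith
  have h3 : ((2 : ℝ) ^ l) ^ ε ≤ (m : ℝ) ^ ε := Real.rpow_le_rpow (by positivity) h1 hε.le
  have h4 : (1 : ℝ) + l * (ε * Real.log 2) ≤ (m : ℝ) ^ ε := h2.trans h3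
  have h5 : ((l : ℝ) + 1) ≤ (1 / (ε * Real.log 2) + 1) * (1 + l * (ε * Real.log 2)) := by
    have h6 : (1 / (ε * Real.log 2) + 1) * (1 + l * (ε * Real.log 2))
        = l + 1 + (1 / (ε * Real.log 2) + l * (ε * Real.log 2)) := by
      field_simp
      ring
    rw [h6]
    have : 0 ≤ 1 / (ε * Real.log 2) + l * (ε * Real.log 2) := by positivity
    linarith
  refine h5.trans (mul_le_mul_of_nonneg_left h4 (by positivity))

/-- `Q` is covered by at most `C1` subsets in progressions of rank `R` and size `|Q| ^ A`. -/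
def Cov (C1 : ℝ) (R : ℕ) (A : ℝ) (Q : Finset (ℝ × ℝ)) : Prop :=
  ∃ (T : Finset ℤ) (W : ℤ → Finset (ℝ × ℝ)), (T.card : ℝ) ≤ C1 ∧ (∀ s ∈ Q, ∃ t ∈ T, s ∈ W t) ∧
    ∀ t, W t ⊆ Q ∧ InGap R ((Q.card : ℝ) ^ A) (W t)

/-- The number of parallel differences, from the bound for lines. -/
theorem kk_le (C1 : ℝ) (R : ℕ) (A ε : ℝ) (hε : 0 < ε) : ∃ M : ℝ, 1 ≤ M ∧
    ∀ (Q : Finset (ℝ × ℝ)) (L : ℝ), 1 ≤ L → Cov C1 R A Q →
    2 ≤ Q.card → (numDist Q : ℝ) ≤ Q.card / 6 → ((Q + Q).card : ℝ) ≤ L * Q.card →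
    ∀ w : ℝ × ℝ, w ≠ 0 → (kk Q w : ℝ) ≤ L ^ 5 * M * (Q.card : ℝ) ^ ((1 : ℝ) / 2 + ε) := by
  classical
  obtain ⟨M, hM, hmain⟩ := mainS 0 A R 1 ε hε
  refine ⟨|C1| * M + 1, by nlinarith [abs_nonneg C1], ?_⟩
  intro Q L hL ⟨T, W, hT, hcov, hW⟩ hQ2 hD hQK w hw
  have hQne : Q.Nonempty := Finset.card_pos.1 (by omega)
  have hq0 : (0 : ℝ) < Q.card := by exact_mod_cast hQne.card_pos
  have h1 := fiber_mul Q (Q - Q) w
  have h2 : ((Q + (Q - Q)).card : ℝ) ≤ L ^ 5 * Q.card := by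
    refine le_trans ?_ (five hQne hQK)
    exact_mod_cast Finset.card_le_card_add_right (hQne.sub hQne)
  -- the fullest line
  obtain ⟨z, -, hz⟩ : ∃ z ∈ Q.image (dt w),
      Q.card ≤ (Q.image (dt w)).card * (Q.filter (fun p => dt w p = z)).card := by
    by_contra hcon
    push Not at hcon
    have h3 := Finset.card_eq_sum_card_image (dt w) Q
    obtain ⟨c, hcm, hmax⟩ := (Q.image (dt w)).exists_max_image
      (fun c => (Q.filter (fun p => dt w p = c)).card) (hQne.image _)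
    have h4 := hcon c hcm
    have h5 : ∑ b ∈ Q.image (dt w), (Q.filter (fun p => dt w p = b)).card
        ≤ (Q.image (dt w)).card * (Q.filter (fun p => dt w p = c)).card := by
      calc _ ≤ ∑ _b ∈ Q.image (dt w), (Q.filter (fun p => dt w p = c)).card :=
            Finset.sum_le_sum hmax
        _ = _ := by rw [Finset.sum_const, smul_eq_mul]
    omega
  set f : MvPolynomial (Fin 2) ℝ := C w.1 * X 1 - C w.2 * X 0 - C z with hf
  have hev : ∀ x : ℝ × ℝ, eval ![x.1, x.2] f = dt w x - z := by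
    intro x
    simp [hf, dt]
  have hf0 : f ≠ 0 := by
    intro h
    have e0 := hev 0
    have e1 := hev (1, 0)
    have e2 := hev (0, 1)
    rw [h, map_zero] at e0 e1 e2
    simp only [dt, Prod.fst_zero, Prod.snd_zero, mul_zero, mul_one, sub_zero, zero_sub] at e0 e1 e2
    apply hw
    apply Prod.ext
    · simp only [Prod.fst_zero]; linarith
    · simp only [Prod.snd_zero]; linarith
  have hdeg : f.totalDegree ≤ 1 := by
    have a1 : (C w.1 * X 1 : MvPolynomial (Fin 2) ℝ).totalDegree ≤ 1 :=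
      (totalDegree_mul _ _).trans (by rw [totalDegree_C, totalDegree_X])
    have a2 : (C w.2 * X 0 : MvPolynomial (Fin 2) ℝ).totalDegree ≤ 1 :=
      (totalDegree_mul _ _).trans (by rw [totalDegree_C, totalDegree_X])
    have a3 : (C z : MvPolynomial (Fin 2) ℝ).totalDegree ≤ 1 := by rw [totalDegree_C]; omega
    exact (totalDegree_sub _ _).trans (max_le ((totalDegree_sub _ _).trans (max_le a1 a2)) a3)
  set y : ℝ := (Q.card : ℝ) ^ ((1 : ℝ) / 2 + ε) with hy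
  have hy0 : 0 < y := by positivity
  set F := (Q.filter (fun p => dt w p = z)).card with hF
  have h6 : (F : ℝ) ≤ |C1| * (M * y) := by
    have h7 : Q.filter (fun p => dt w p = z) ⊆
        T.biUnion (fun t => (W t).filter (fun x : ℝ × ℝ => eval ![x.1, x.2] f = 0)) := by
      intro x hx
      obtain ⟨hxQ, hxz⟩ := Finset.mem_filter.1 hx
      obtain ⟨t, ht, hxt⟩ := hcov x hxQ
      rw [Finset.mem_biUnion]
      exact ⟨t, ht, Finset.mem_filter.2 ⟨hxt, by rw [hev, hxz, sub_self]⟩⟩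
    have h8 : ∀ t ∈ T,
        ((((W t).filter (fun x : ℝ × ℝ => eval ![x.1, x.2] f = 0)).card : ℕ) : ℝ) ≤ M * y :=
      fun t _ => hmain Q hQ2 (Or.inl hD) (W t) (hW t).1 (hW t).2 f hf0 hdeg
    calc (F : ℝ) ≤ ∑ t ∈ T,
          ((((W t).filter (fun x : ℝ × ℝ => eval ![x.1, x.2] f = 0)).card : ℕ) : ℝ) := by
          exact_mod_cast (Finset.card_le_card h7).trans Finset.card_biUnion_le
      _ ≤ ∑ t ∈ T, M * y := Finset.sum_le_sum h8
      _ = T.card * (M * y) := by rw [Finset.sum_const, nsmul_eq_mul]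
      _ ≤ |C1| * (M * y) := mul_le_mul_of_nonneg_right (hT.trans (le_abs_self _)) (by positivity)
  have h8 : (Q.card : ℝ) * kk Q w ≤ Q.card * (L ^ 5 * F) := by
    have h9 : Q.card * kk Q w ≤ (Q + (Q - Q)).card * F := by
      calc Q.card * kk Q w ≤ ((Q.image (dt w)).card * F) * kk Q w := Nat.mul_le_mul_right _ hz
        _ = ((Q.image (dt w)).card * kk Q w) * F := by ring
        _ ≤ _ := Nat.mul_le_mul_right _ h1
    have h10 : (Q.card : ℝ) * kk Q w ≤ ((Q + (Q - Q)).card : ℝ) * F := by exact_mod_cast h9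
    calc (Q.card : ℝ) * kk Q w ≤ ((Q + (Q - Q)).card : ℝ) * F := h10
      _ ≤ (L ^ 5 * Q.card) * F := mul_le_mul_of_nonneg_right h2 (by positivity)
      _ = _ := by ring
  have h9 := le_of_mul_le_mul_left h8 hq0
  have hL5 : 0 < L ^ 5 := by positivity
  calc (kk Q w : ℝ) ≤ L ^ 5 * F := h9
    _ ≤ L ^ 5 * (|C1| * (M * y)) := mul_le_mul_of_nonneg_left h6 hL5.le
    _ = L ^ 5 * (|C1| * M) * y := by ring
    _ ≤ L ^ 5 * (|C1| * M + 1) * y := by
        refine mul_le_mul_of_nonneg_right (mul_le_mul_of_nonneg_left ?_ hL5.le) hy0.le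
        linarith

/-- The number of perpendicular pairs of differences is at most `n ^ (1 + 2 ε)`. -/
theorem perp_le (C1 : ℝ) (R : ℕ) (A ε : ℝ) (hε : 0 < ε) (hε1 : ε ≤ 1 / 2) : ∃ C : ℝ, 0 < C ∧
    ∀ (Q : Finset (ℝ × ℝ)) (L : ℝ), 1 ≤ L → Cov C1 R A Q →
    2 ≤ Q.card → (numDist Q : ℝ) ≤ Q.card / 6 → ((Q + Q).card : ℝ) ≤ L * Q.card →
    ∑ e ∈ (Q - Q).erase 0, (kk Q (rot e) : ℝ) ≤ C * L ^ 25 * (Q.card : ℝ) ^ (1 + 2 * ε) := by
  classical
  obtain ⟨M, hM, hkk⟩ := kk_le C1 R A ε hε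
  obtain ⟨Cl, hCl, hlog⟩ := log_le ε hε
  refine ⟨2400 * (Cl * M ^ ε + 2 * M ^ 2), by positivity, ?_⟩
  intro Q L hL hcov hQ2 hD hQK
  have hQne : Q.Nonempty := Finset.card_pos.1 (by omega)
  set n : ℝ := (Q.card : ℝ) with hn
  have hn2 : (2 : ℝ) ≤ n := by rw [hn]; exact_mod_cast hQ2
  have hn0 : 0 < n := by linarith
  have hn1 : 1 ≤ n := by linarith
  have hL5 : 1 ≤ L ^ 5 := one_le_pow₀ hL
  have hL50 : 0 < L ^ 5 := by positivity
  set m : ℕ := ⌊L ^ 5 * M * n ^ ((1 : ℝ) / 2 + ε)⌋₊ with hm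
  have hm1 : (m : ℝ) ≤ L ^ 5 * M * n ^ ((1 : ℝ) / 2 + ε) := Nat.floor_le (by positivity)
  have hkm : ∀ w : ℝ × ℝ, w ≠ 0 → kk Q w ≤ m :=
    fun w hw => Nat.le_floor (hkk Q L hL hcov hQ2 hD hQK w hw)
  have hm0 : 1 ≤ m := (kk_pos hQne (1, 0)).trans (hkm (1, 0) (by
    intro h; exact one_ne_zero (congrArg Prod.fst h)))
  refine (perp_sum Q hQne (L ^ 5) hL5 (five hQne hQK) m hkm).trans ?_
  have h1 : n * ((Nat.log 2 m : ℝ) + 1) ≤ L ^ 10 * (Cl * M ^ ε * n ^ (1 + 2 * ε)) := by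
    have h2 : ((Nat.log 2 m : ℝ) + 1) ≤ Cl * (L ^ 5 * (M ^ ε * n ^ ε)) := by
      refine (hlog m hm0).trans (mul_le_mul_of_nonneg_left ?_ hCl.le)
      calc (m : ℝ) ^ ε ≤ (L ^ 5 * M * n ^ ((1 : ℝ) / 2 + ε)) ^ ε :=
            Real.rpow_le_rpow (by positivity) hm1 hε.le
        _ = (L ^ 5) ^ ε * (M ^ ε * n ^ (((1 : ℝ) / 2 + ε) * ε)) := by
            rw [Real.mul_rpow (by positivity) (by positivity), ← Real.rpow_mul hn0.le,
              Real.mul_rpow (by positivity) (by linarith), mul_assoc]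
        _ ≤ L ^ 5 * (M ^ ε * n ^ ε) := by
            have e1 : (L ^ 5) ^ ε ≤ L ^ 5 := by
              calc (L ^ 5) ^ ε ≤ (L ^ 5) ^ (1 : ℝ) :=
                    Real.rpow_le_rpow_of_exponent_le hL5 (by linarith)
                _ = L ^ 5 := Real.rpow_one _
            have e2 : n ^ (((1 : ℝ) / 2 + ε) * ε) ≤ n ^ ε :=
              Real.rpow_le_rpow_of_exponent_le hn1 (by nlinarith)
            gcongr
    calc n * ((Nat.log 2 m : ℝ) + 1) ≤ n * (Cl * (L ^ 5 * (M ^ ε * n ^ ε))) :=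
          mul_le_mul_of_nonneg_left h2 hn0.le
      _ = L ^ 5 * (Cl * M ^ ε * n ^ (1 + ε)) := by
          rw [Real.rpow_add hn0, Real.rpow_one]; ring
      _ ≤ L ^ 10 * (Cl * M ^ ε * n ^ (1 + 2 * ε)) := by
          have e1 : L ^ 5 ≤ L ^ 10 := pow_le_pow_right₀ hL (by norm_num)
          have e2 : n ^ (1 + ε) ≤ n ^ (1 + 2 * ε) :=
            Real.rpow_le_rpow_of_exponent_le hn1 (by linarith)
          gcongr
  have h2 : (m : ℝ) ^ 2 ≤ L ^ 10 * (M ^ 2 * n ^ (1 + 2 * ε)) := by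
    calc (m : ℝ) ^ 2 ≤ (L ^ 5 * M * n ^ ((1 : ℝ) / 2 + ε)) ^ 2 :=
          pow_le_pow_left₀ (by positivity) hm1 2
      _ = L ^ 10 * (M ^ 2 * n ^ (1 + 2 * ε)) := by
          rw [mul_pow, ← Real.rpow_natCast (n ^ ((1 : ℝ) / 2 + ε)) 2, ← Real.rpow_mul hn0.le]
          have e : ((1 : ℝ) / 2 + ε) * ((2 : ℕ) : ℝ) = 1 + 2 * ε := by push_cast; ring
          rw [e]
          ring
  calc 2400 * (L ^ 5) ^ 3 * (n * ((Nat.log 2 m : ℝ) + 1) + 2 * (m : ℝ) ^ 2)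
      ≤ 2400 * (L ^ 5) ^ 3 * (L ^ 10 * (Cl * M ^ ε * n ^ (1 + 2 * ε))
          + 2 * (L ^ 10 * (M ^ 2 * n ^ (1 + 2 * ε)))) := by
        refine mul_le_mul_of_nonneg_left ?_ (by positivity)
        linarith
    _ = 2400 * (Cl * M ^ ε + 2 * M ^ 2) * L ^ 25 * n ^ (1 + 2 * ε) := by ring

/-- The main theorem. -/
theorem dense_gen (C1 : ℝ) (R : ℕ) (A : ℝ) (d : ℕ) (ε : ℝ) (hε : 0 < ε) : ∃ M : ℝ, 0 < M ∧
    ∀ (P Q : Finset (ℝ × ℝ)) (L : ℝ), 2 ≤ P.card → Q ⊆ P → Cov C1 R A Q →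
    ((Q + Q).card : ℝ) ≤ L * Q.card → (numDist P : ℝ) ≤ Q.card / 6 →
    ∀ f : MvPolynomial (Fin 2) ℝ, f ≠ 0 → f.totalDegree ≤ d →
      ((P.filter (fun x : ℝ × ℝ => eval ![x.1, x.2] f = 0)).card : ℝ)
        ≤ M * L ^ 50 * (P.card : ℝ) ^ ((1 : ℝ) / 2 + ε) := by
  classical
  set ε1 : ℝ := min (ε / 5) (1 / 2) with hε1
  have hε1pos : 0 < ε1 := lt_min (by linarith) (by norm_num)
  have hε1a : ε1 ≤ ε / 5 := min_le_left _ _
  have hε1b : ε1 ≤ 1 / 2 := min_le_right _ _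
  obtain ⟨CS, hCS, hperp⟩ := perp_le C1 R A ε1 hε1pos hε1b
  obtain ⟨K6, hK6, hmain⟩ := mainS 0 (max A 0) (R + R) d ε1 hε1pos
  refine ⟨(C1 ^ 2 + 1) * K6 * CS ^ 2, by positivity, ?_⟩
  intro P Q L hP hQP hcov0 hQK hD f hf hfd
  have hD1 : (1 : ℝ) ≤ numDist P := by exact_mod_cast numDist_pos hP
  have hQ6 : (6 : ℝ) ≤ Q.card := by linarith
  have hQ6' : 6 ≤ Q.card := by exact_mod_cast hQ6
  have hQne : Q.Nonempty := Finset.card_pos.1 (by omega)
  set n : ℝ := (P.card : ℝ) with hn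
  set q : ℝ := (Q.card : ℝ) with hq
  have hn2 : (2 : ℝ) ≤ n := by rw [hn]; exact_mod_cast hP
  have hn0 : 0 < n := by linarith
  have hqn : q ≤ n := by rw [hn, hq]; exact_mod_cast Finset.card_le_card hQP
  have hq0 : 0 < q := by linarith
  have hL : 1 ≤ L := by
    have h1 : (Q.card : ℝ) ≤ (Q + Q).card := by
      exact_mod_cast Finset.card_le_card_add_left hQne
    rw [← hq] at h1
    have h2 : 1 * q ≤ L * q := by linarith
    exact le_of_mul_le_mul_right h2 hq0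
  obtain ⟨T, W, hT, hcov, hW⟩ := hcov0
  have hpow : q ^ A ≤ n ^ (max A 0) :=
    (Real.rpow_le_rpow_of_exponent_le (by linarith) (le_max_left A 0)).trans
      (Real.rpow_le_rpow hq0.le hqn (le_max_right A 0))
  set X := P.filter (fun x : ℝ × ℝ => eval ![x.1, x.2] f = 0) with hX
  have hXP : X ⊆ P := Finset.filter_subset _ _
  have hDP : (numDist P : ℝ) ≤ n / 6 := by linarith
  set B : ℝ := (C1 ^ 2 + 1) * (K6 * n ^ ((1 : ℝ) / 2 + ε1)) with hB
  have hB0 : 0 ≤ B := by positivity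
  have hS := hperp Q L hL ⟨T, W, hT, hcov, hW⟩ (by omega) (by
    have : (numDist Q : ℝ) ≤ numDist P := by exact_mod_cast numDist_mono hQP
    linarith) hQK
  have hcore := core Q X (numDist P + 1) hQne (fun x hx => seen hQP (hXP hx)) (by
      have h1 : (3 : ℝ) * (numDist P + 1) ≤ Q.card := by linarith
      exact_mod_cast h1) B (CS * L ^ 25 * q ^ (1 + 2 * ε1)) hB0 (by
    intro I J hIJ Y hY hgood
    -- cover `Y` by pieces
    set piece : ℤ × ℤ → Finset (ℝ × ℝ) := fun t => Y.filter (fun x =>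
      (∃ q ∈ W t.1, nsq (x - q) = nsq (x - (q - I))) ∧
        (∃ q ∈ W t.2, nsq (x - q) = nsq (x - (q - J)))) with hpiece
    have h1 : Y ⊆ (T ×ˢ T).biUnion piece := by
      intro x hx
      obtain ⟨⟨q1, hq1, -, e1⟩, q2, hq2, -, e2⟩ := hgood x hx
      obtain ⟨t1, ht1, hw1⟩ := hcov q1 hq1
      obtain ⟨t2, ht2, hw2⟩ := hcov q2 hq2
      rw [Finset.mem_biUnion]
      exact ⟨(t1, t2), Finset.mem_product.2 ⟨ht1, ht2⟩,
        Finset.mem_filter.2 ⟨hx, ⟨q1, hw1, e1⟩, q2, hw2, e2⟩⟩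
    have h2 : ∀ t ∈ T ×ˢ T, ((piece t).card : ℝ) ≤ K6 * n ^ ((1 : ℝ) / 2 + ε1) := by
      intro t _
      have hsub : piece t ⊆ X := (Finset.filter_subset _ _).trans hY
      have h3 : InGap (R + R) (n ^ (max A 0)) (piece t) :=
        cont_two (W t.1) (W t.2) (piece t) R _ (InGap.mono hpow (hW t.1).2)
          (InGap.mono hpow (hW t.2).2) I J hIJ (fun x hx => (Finset.mem_filter.1 hx).2)
      have h4 := hmain P hP (Or.inl hDP) (piece t) (hsub.trans hXP) h3 f hf hfd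
      have h5 : (piece t).filter (fun x : ℝ × ℝ => eval ![x.1, x.2] f = 0) = piece t :=
        Finset.filter_true_of_mem fun x hx => (Finset.mem_filter.1 (hsub hx)).2
      rw [h5] at h4
      exact h4
    have h3 : (Y.card : ℝ) ≤ ∑ t ∈ T ×ˢ T, ((piece t).card : ℝ) := by
      exact_mod_cast (Finset.card_le_card h1).trans Finset.card_biUnion_le
    calc (Y.card : ℝ) ≤ ∑ t ∈ T ×ˢ T, ((piece t).card : ℝ) := h3
      _ ≤ ∑ _t ∈ T ×ˢ T, K6 * n ^ ((1 : ℝ) / 2 + ε1) := Finset.sum_le_sum h2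
      _ = (T.card : ℝ) ^ 2 * (K6 * n ^ ((1 : ℝ) / 2 + ε1)) := by
          rw [Finset.sum_const, Finset.card_product, nsmul_eq_mul]
          push_cast; ring
      _ ≤ B := by
          refine mul_le_mul_of_nonneg_right ?_ (by positivity)
          have : (T.card : ℝ) ^ 2 ≤ C1 ^ 2 := pow_le_pow_left₀ (by positivity) hT 2
          linarith) hS
  -- numerics
  rw [← hq] at hcore
  have h1 : (q ^ (1 + 2 * ε1)) ^ 2 = q ^ 2 * q ^ (4 * ε1) := by
    rw [← Real.rpow_natCast (q ^ (1 + 2 * ε1)) 2, ← Real.rpow_mul hq0.le,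
      ← Real.rpow_natCast q 2, ← Real.rpow_add hq0]
    congr 1
    push_cast; ring
  have h2 : q ^ 2 * (2 * (X.card : ℝ)) ≤ q ^ 2 * (B * (CS ^ 2 * L ^ 50 * q ^ (4 * ε1))) := by
    calc q ^ 2 * (2 * (X.card : ℝ)) = 2 * (X.card : ℝ) * q ^ 2 := by ring
      _ ≤ B * (CS * L ^ 25 * q ^ (1 + 2 * ε1)) ^ 2 := hcore
      _ = _ := by rw [mul_pow, h1]; ring
  have h3 := le_of_mul_le_mul_left h2 (by positivity)
  have h4 : q ^ (4 * ε1) ≤ n ^ (4 * ε1) := Real.rpow_le_rpow hq0.le hqn (by linarith)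
  have h5 : (X.card : ℝ) ≤ 2 * (X.card : ℝ) := by
    have : (0 : ℝ) ≤ X.card := by positivity
    linarith
  calc (X.card : ℝ) ≤ B * (CS ^ 2 * L ^ 50 * q ^ (4 * ε1)) := h5.trans h3
    _ ≤ B * (CS ^ 2 * L ^ 50 * n ^ (4 * ε1)) := by gcongr
    _ = (C1 ^ 2 + 1) * K6 * CS ^ 2 * L ^ 50 * n ^ ((1 : ℝ) / 2 + 5 * ε1) := by
        rw [hB, show (1 : ℝ) / 2 + 5 * ε1 = (1 / 2 + ε1) + 4 * ε1 by ring,
          Real.rpow_add hn0 (1 / 2 + ε1)]
        ring
    _ ≤ (C1 ^ 2 + 1) * K6 * CS ^ 2 * L ^ 50 * n ^ ((1 : ℝ) / 2 + ε) := by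
        refine mul_le_mul_of_nonneg_left ?_ (by positivity)
        exact Real.rpow_le_rpow_of_exponent_le (by linarith) (by linarith)

/-- Progressions: polynomial dependence on the doubling constant `L`. -/
theorem dense_gap (A : ℝ) (r d : ℕ) (ε : ℝ) (hε : 0 < ε) : ∃ M : ℝ, 0 < M ∧
    ∀ (P Q : Finset (ℝ × ℝ)) (L : ℝ), 2 ≤ P.card → Q ⊆ P → InGap r ((Q.card : ℝ) ^ A) Q →
    ((Q + Q).card : ℝ) ≤ L * Q.card → (numDist P : ℝ) ≤ Q.card / 6 →
    ∀ f : MvPolynomial (Fin 2) ℝ, f ≠ 0 → f.totalDegree ≤ d →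
      ((P.filter (fun x : ℝ × ℝ => eval ![x.1, x.2] f = 0)).card : ℝ)
        ≤ M * L ^ 50 * (P.card : ℝ) ^ ((1 : ℝ) / 2 + ε) := by
  obtain ⟨M, hM, h⟩ := dense_gen 1 r A d ε hε
  refine ⟨M, hM, fun P Q L hP hQP hgap => h P Q L hP hQP ?_⟩
  exact ⟨{0}, fun _ => Q, by simp, fun s hs => ⟨0, by simp, hs⟩,
    fun _ => ⟨Finset.Subset.refl _, hgap⟩⟩

/-- Small doubling. -/
theorem dense (K : ℝ) (d : ℕ) (ε : ℝ) (hε : 0 < ε) : ∃ M : ℝ, 0 < M ∧
    ∀ P Q : Finset (ℝ × ℝ), 2 ≤ P.card → Q ⊆ P → ((Q + Q).card : ℝ) ≤ K * Q.card →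
    (numDist P : ℝ) ≤ Q.card / 6 →
    ∀ f : MvPolynomial (Fin 2) ℝ, f ≠ 0 → f.totalDegree ≤ d →
      ((P.filter (fun x : ℝ × ℝ => eval ![x.1, x.2] f = 0)).card : ℝ)
        ≤ M * (P.card : ℝ) ^ ((1 : ℝ) / 2 + ε) := by
  classical
  obtain ⟨R, C1, hC1, hfr⟩ := freiman_plane K
  set a : ℝ := Real.log C1 / Real.log 2 with ha
  have hl2 : 0 < Real.log 2 := Real.log_pos (by norm_num)
  have ha0 : 0 ≤ a := div_nonneg (Real.log_nonneg hC1) hl2.le
  have hC10 : 0 < C1 := by linarith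
  obtain ⟨M, hM, h⟩ := dense_gen C1 R (2 * (a + 1)) d ε hε
  refine ⟨M * K ^ 50 + 1, by positivity, ?_⟩
  intro P Q hP hQP hQK hD f hf hfd
  have hD1 : (1 : ℝ) ≤ numDist P := by exact_mod_cast numDist_pos hP
  have hQ6 : (6 : ℝ) ≤ Q.card := by linarith
  set q : ℝ := (Q.card : ℝ) with hq
  have hq0 : 0 < q := by linarith
  have hcov : Cov C1 R (2 * (a + 1)) Q := by
    obtain ⟨T, W, hT, hcov, hW⟩ := hfr Q hQK
    refine ⟨T, W, hT, hcov, fun t => ⟨(hW t).1, InGap.mono ?_ (hW t).2⟩⟩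
    have hC1n : C1 ≤ q ^ a := by
      calc C1 = (2 : ℝ) ^ a := by
            rw [Real.rpow_def_of_pos (by norm_num), ha, mul_div_cancel₀ _ hl2.ne',
              Real.exp_log hC10]
        _ ≤ q ^ a := Real.rpow_le_rpow (by norm_num) (by linarith) ha0
    have h1 : C1 * q ≤ q ^ (a + 1) := by
      rw [Real.rpow_add hq0, Real.rpow_one]
      exact mul_le_mul_of_nonneg_right hC1n hq0.le
    calc (C1 * q) ^ 2 ≤ (q ^ (a + 1)) ^ 2 := pow_le_pow_left₀ (by positivity) h1 2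
      _ = q ^ (2 * (a + 1)) := by
          rw [← Real.rpow_natCast, ← Real.rpow_mul hq0.le]
          congr 1
          push_cast; ring
  refine (h P Q K hP hQP hcov hQK hD f hf hfd).trans ?_
  refine mul_le_mul_of_nonneg_right ?_ (by positivity)
  linarith

/-- Large additive energy. -/
theorem dense_energy (K : ℝ) (d : ℕ) (ε : ℝ) (hε : 0 < ε) : ∃ c M : ℝ, 0 < c ∧ 0 < M ∧
    ∀ P Q : Finset (ℝ × ℝ), 2 ≤ P.card → Q ⊆ P → (Q.card : ℝ) ^ 3 ≤ K * energy Q →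
    (numDist P : ℝ) ≤ c * Q.card →
    ∀ f : MvPolynomial (Fin 2) ℝ, f ≠ 0 → f.totalDegree ≤ d →
      ((P.filter (fun x : ℝ × ℝ => eval ![x.1, x.2] f = 0)).card : ℝ)
        ≤ M * (P.card : ℝ) ^ ((1 : ℝ) / 2 + ε) := by
  classical
  set J : ℝ := 2 * (|K| + 1) with hJ
  have hK1 : 0 < |K| + 1 := by positivity
  have hJ1 : 1 ≤ J := by rw [hJ]; linarith [abs_nonneg K]
  have hJ0 : 0 < J := by linarith
  obtain ⟨M, hM, hd⟩ := dense ((4096 * J ^ 10) ^ 2) d ε hε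
  refine ⟨1 / (24 * J), M, by positivity, hM, ?_⟩
  intro P Q hP hQP hQ hD f hf hfd
  have hD1 : (1 : ℝ) ≤ numDist P := by exact_mod_cast numDist_pos hP
  rcases Q.eq_empty_or_nonempty with rfl | hne
  · simp only [Finset.card_empty, Nat.cast_zero, mul_zero] at hD
    linarith
  obtain ⟨D, h1, h2⟩ := popular Q (|K| + 1) hK1 (hQ.trans (mul_le_mul_of_nonneg_right
    (by linarith [le_abs_self K]) (by positivity)))
  obtain ⟨S', hS'S, hS'n, h3, h4⟩ := Pool.Agent.W_626a77_h79.bsg Q D J hJ1 hne h1 h2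
  have h5 := doubling_of_diff hS'n (by positivity) h4
  refine hd P S' hP (hS'S.trans hQP) h5 ?_ f hf hfd
  calc (numDist P : ℝ) ≤ 1 / (24 * J) * Q.card := hD
    _ ≤ 1 / (24 * J) * (4 * J * S'.card) := mul_le_mul_of_nonneg_left h3 (by positivity)
    _ = S'.card / 6 := by field_simp; ring

/-- Large additive energy, few distances. -/
theorem dense_few (C K : ℝ) (d : ℕ) (ε : ℝ) (hε : 0 < ε) : ∃ M : ℝ, 0 < M ∧
    ∀ P : Finset (ℝ × ℝ), 2 ≤ P.card → (P.card : ℝ) ^ 3 ≤ K * energy P →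
    (numDist P : ℝ) ≤ C * (P.card : ℝ) / Real.sqrt (Real.log (P.card : ℝ)) →
    ∀ f : MvPolynomial (Fin 2) ℝ, f ≠ 0 → f.totalDegree ≤ d →
      ((P.filter (fun x : ℝ × ℝ => eval ![x.1, x.2] f = 0)).card : ℝ)
        ≤ M * (P.card : ℝ) ^ ((1 : ℝ) / 2 + ε) := by
  classical
  obtain ⟨c, M, hc, hM, h⟩ := dense_energy K d ε hε
  set n0 : ℝ := Real.exp ((|C| / c + 1) ^ 2) with hn0
  have hn0pos : 0 < n0 := Real.exp_pos _
  refine ⟨M + n0, by positivity, ?_⟩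
  intro P hP hE hD f hf hfd
  set n : ℝ := (P.card : ℝ) with hn
  have hn2 : (2 : ℝ) ≤ n := by rw [hn]; exact_mod_cast hP
  have hnpow : (1 : ℝ) ≤ n ^ ((1 : ℝ) / 2 + ε) := Real.one_le_rpow (by linarith) (by linarith)
  rcases lt_or_ge n n0 with hsmall | hlarge
  · have h1 : ((P.filter (fun x : ℝ × ℝ => eval ![x.1, x.2] f = 0)).card : ℝ) ≤ n := by
      rw [hn]; exact_mod_cast Finset.card_le_card (Finset.filter_subset _ _)
    nlinarith
  · have h1 : (|C| / c + 1) ^ 2 ≤ Real.log n := by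
      rw [Real.le_log_iff_exp_le (by linarith)]; exact hlarge
    have h2 : |C| / c + 1 ≤ Real.sqrt (Real.log n) := Real.le_sqrt_of_sq_le h1
    have h3 : 0 < Real.sqrt (Real.log n) := by
      have : 0 ≤ |C| / c := by positivity
      linarith
    have h4 : (numDist P : ℝ) ≤ c * n := by
      refine hD.trans ?_
      rw [div_le_iff₀ h3]
      have h5 : |C| / c ≤ Real.sqrt (Real.log n) := by linarith
      rw [div_le_iff₀ hc] at h5
      have h6 := le_abs_self C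
      have h7 : C ≤ Real.sqrt (Real.log n) * c := h6.trans h5
      nlinarith
    have h5 := h P P hP (Finset.Subset.refl _) hE h4 f hf hfd
    nlinarith

end Pool.Agent.W_96b415_h42
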