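import Pool.Agent.W_626a77_h42.Shrink

/-!
# Lattice points of a convex body in a progression with few generators from the set

A set `Y` of lattice points of `2 B` is contained in a generalized arithmetic progression generated
by at most `d` elements of `Y` divided by an integer `D ≤ C_d |B ∩ ℤ ^ d|`, with coefficients at most
`(C_d |B ∩ ℤ ^ d|) ^ 2`.
-/

set_option autoImplicit false

open scoped Pointwise

namespace Pool.Agent.W_96b415_h42

open Pool.Agent.W_626a77_h42

variable {d : ℕ}

/-- lattice points of `2 ^ j B` -/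
theorem card_pow {B : Set (Fin d → ℝ)} (hB : Body B) (j : ℕ) :
    (lat ((2 : ℝ) ^ j • B)).card ≤ 5 ^ (d * j) * (lat B).card := by
  induction j with
  | zero => simp
  | succ j ih =>
    have h1 := card_double (hB.smul (by positivity : (0 : ℝ) < 2 ^ j))
    rw [smul_smul, ← pow_succ'] at h1
    calc (lat ((2 : ℝ) ^ (j + 1) • B)).card ≤ 5 ^ d * (lat ((2 : ℝ) ^ j • B)).card := h1
      _ ≤ 5 ^ d * (5 ^ (d * j) * (lat B).card) := Nat.mul_le_mul_left _ ih
      _ = 5 ^ (d * (j + 1)) * (lat B).card := by ring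

theorem comb_mem {B : Set (Fin d → ℝ)} (hB : Body B) {κ : Type*} (s : Finset κ) (θ : κ → ℝ)
    (w : κ → Fin d → ℝ) (hθ : ∀ i, 0 ≤ θ i ∧ θ i ≤ 1) (hw : ∀ i, w i ∈ (2 : ℝ) • B) :
    ∑ i ∈ s, θ i • w i ∈ ((2 : ℝ) * s.card) • B := by
  classical
  induction s using Finset.induction_on with
  | empty =>
    simp only [Finset.sum_empty, Finset.card_empty, Nat.cast_zero, mul_zero]
    exact ⟨0, hB.zero_mem, by simp⟩
  | insert a s ha ih =>
    rw [Finset.sum_insert ha, Finset.card_insert_of_notMem ha]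
    push_cast
    rw [mul_add, mul_one, add_comm ((2 : ℝ) * s.card)]
    refine hB.add_mem (by norm_num) (by positivity) ?_ ih
    obtain ⟨y, hy, hyw⟩ := hw a
    have h1 : θ a • w a ∈ (θ a * 2) • B := ⟨y, hy, by rw [← hyw]; simp only [smul_smul]⟩
    exact hB.smul_mono (mul_nonneg (hθ a).1 (by norm_num)) (by nlinarith [(hθ a).2]) h1

theorem rv_sum {κ : Type*} (s : Finset κ) (k : κ → ℤ) (w : κ → Fin d → ℤ) :
    rv (∑ i ∈ s, k i • w i) = ∑ i ∈ s, (k i : ℝ) • rv (w i) := by
  ext j
  simp [rv]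

theorem container {R : ℕ} (hdR : d ≤ R) {B : Set (Fin d → ℝ)} (hB : Body B)
    (Y : Finset (Fin d → ℤ)) (hY0 : (0 : Fin d → ℤ) ∈ Y) (hY : ∀ y ∈ Y, rv y ∈ (2 : ℝ) • B) (N : ℕ)
    (hN : N = 5 ^ (d * (d + 1)) * (lat B).card) :
    ∃ (z : Fin R → Fin d → ℤ) (D : ℕ), (∀ j, z j ∈ Y) ∧ 1 ≤ D ∧ D ≤ N ∧
      ∀ y ∈ Y, ∃ k : Fin R → ℤ, (∀ j, |k j| ≤ (D : ℤ) * N) ∧ (D : ℤ) • y = ∑ j, k j • z j := by
  classical
  -- the big body
  have hB2 := hB.smul (by positivity : (0 : ℝ) < 2 ^ (d + 1))
  set F := lat ((2 : ℝ) ^ (d + 1) • B) with hF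
  have hFN : F.card ≤ N := by rw [hN]; exact card_pow hB (d + 1)
  have h2d : (2 : ℝ) * d + 2 ≤ 2 ^ (d + 1) := by
    have h1 : d + 1 ≤ 2 ^ d := Nat.lt_two_pow_self
    have h2 : ((d : ℝ) + 1) ≤ 2 ^ d := by exact_mod_cast h1
    rw [pow_succ]
    linarith
  -- a basis
  obtain ⟨κ, a, ha, hspan, hli⟩ := exists_linearIndependent' ℝ
    (fun y : Y => rv (y : Fin d → ℤ))
  have : Finite κ := Finite.of_injective a ha
  have : Fintype κ := Fintype.ofFinite κ
  have hκd : Fintype.card κ ≤ d := by
    have := hli.fintype_card_le_finrank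
    simpa using this
  set w : κ → Fin d → ℤ := fun i => (a i : Fin d → ℤ) with hw
  have hwY : ∀ i, w i ∈ Y := fun i => (a i).2
  have hli' : LinearIndependent ℝ (fun i => rv (w i)) := hli
  set V : Submodule ℝ (Fin d → ℝ) := Submodule.span ℝ (Set.range fun i => rv (w i)) with hV
  have hYV : ∀ y ∈ Y, rv y ∈ V := by
    intro y hy
    have h1 : rv y ∈ Submodule.span ℝ (Set.range fun y : Y => rv (y : Fin d → ℤ)) :=
      Submodule.subset_span ⟨⟨y, hy⟩, rfl⟩
    rw [← hspan] at h1
    exact h1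
  have hco : ∀ x : Fin d → ℤ, ∃ l : κ → ℝ, rv x ∈ V → rv x = ∑ i, l i • rv (w i) := by
    intro x
    by_cases hx : rv x ∈ V
    · obtain ⟨l, hl⟩ := (Submodule.mem_span_range_iff_exists_fun ℝ).1 hx
      exact ⟨l, fun _ => hl.symm⟩
    · exact ⟨0, fun h => absurd h hx⟩
  choose l hl using hco
  -- reduction
  set red : ℝ → (Fin d → ℤ) → (Fin d → ℤ) := fun s x => ∑ i, ⌊s * l x i⌋ • w i with hred
  have hcomb : ∀ (s : ℝ) (x : Fin d → ℤ), rv x ∈ V →
      s • rv x - rv (red s x) ∈ ((2 : ℝ) * d) • B := by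
    intro s x hx
    have e1 : s • rv x - rv (red s x) = ∑ i, Int.fract (s * l x i) • rv (w i) := by
      rw [hred]
      simp only
      rw [rv_sum]
      have e0 : s • rv x = ∑ i, s • l x i • rv (w i) := by
        rw [← Finset.smul_sum, ← hl x hx]
      rw [e0, ← Finset.sum_sub_distrib]
      refine Finset.sum_congr rfl fun i _ => ?_
      rw [smul_smul, ← sub_smul, Int.self_sub_floor]
    rw [e1]
    have h1 := comb_mem hB Finset.univ (fun i => Int.fract (s * l x i)) (fun i => rv (w i))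
      (fun i => ⟨Int.fract_nonneg _, (Int.fract_lt_one _).le⟩) fun i => hY _ (hwY i)
    rw [Finset.card_univ] at h1
    refine hB.smul_mono (by positivity) ?_ h1
    have : (Fintype.card κ : ℝ) ≤ d := by exact_mod_cast hκd
    linarith
  -- the lattices
  let rvH : (Fin d → ℤ) →+ (Fin d → ℝ) := ⟨⟨rv, rv_zero⟩, rv_add⟩
  let H : AddSubgroup (Fin d → ℤ) := V.toAddSubgroup.comap rvH
  have hH : ∀ x, x ∈ H ↔ rv x ∈ V := fun x => Iff.rfl
  let H0 : AddSubgroup (Fin d → ℤ) := (Submodule.span ℤ (Set.range w)).toAddSubgroup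
  have hH0 : ∀ x, x ∈ H0 ↔ ∃ c : κ → ℤ, ∑ i, c i • w i = x := fun x =>
    Submodule.mem_span_range_iff_exists_fun ℤ
  let Q := H ⧸ H0.addSubgroupOf H
  let f : Q → F := fun q => ⟨(q.out : Fin d → ℤ) - red 1 (q.out : Fin d → ℤ), by
    rw [hF, mem_lat hB2.cpt, rv_sub]
    have h1 := hcomb 1 (q.out : Fin d → ℤ) ((hH _).1 q.out.2)
    rw [one_smul] at h1
    exact hB.smul_mono (by positivity) (by linarith) h1⟩
  have hf : Function.Injective f := by
    intro q q' h
    have h1 : (q.out : Fin d → ℤ) - red 1 (q.out : Fin d → ℤ)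
        = (q'.out : Fin d → ℤ) - red 1 (q'.out : Fin d → ℤ) := congrArg Subtype.val h
    rw [← Quotient.out_eq q, ← Quotient.out_eq q']
    refine QuotientAddGroup.eq.2 ?_
    rw [AddSubgroup.mem_addSubgroupOf]
    have h2 : (((-q.out + q'.out : H)) : Fin d → ℤ)
        = red 1 (q'.out : Fin d → ℤ) - red 1 (q.out : Fin d → ℤ) := by
      push_cast
      rw [sub_eq_sub_iff_add_eq_add] at h1
      rw [eq_sub_iff_add_eq, add_assoc, ← h1, neg_add_cancel_left]
    rw [h2]
    refine H0.sub_mem ((hH0 _).2 ⟨_, rfl⟩) ((hH0 _).2 ⟨_, rfl⟩)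
  have : Finite Q := Finite.of_injective f hf
  have hQF : Nat.card Q ≤ F.card := by
    have := Nat.card_le_card_of_injective f hf
    simpa using this
  have hQ1 : 1 ≤ Nat.card Q := Nat.card_pos
  set D := Nat.card Q with hD
  -- the coefficients
  have hcoef : ∀ y ∈ Y, ∃ c : κ → ℤ, (∀ i, |c i| ≤ (D : ℤ) * N) ∧ (D : ℤ) • y = ∑ i, c i • w i := by
    intro y hy
    have hyV := hYV y hy
    have h1 : D • (QuotientAddGroup.mk (⟨y, (hH y).2 hyV⟩ : H) : Q) = 0 := card_nsmul_eq_zero'
    have h2 : D • y ∈ H0 := by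
      rw [← QuotientAddGroup.mk_nsmul, QuotientAddGroup.eq_zero_iff,
        AddSubgroup.mem_addSubgroupOf] at h1
      simpa using h1
    obtain ⟨c, hc⟩ := (hH0 _).1 h2
    refine ⟨c, ?_, by rw [hc]; simp⟩
    -- `c i = D * l y i`
    have h3 : ∀ i, (c i : ℝ) = D * l y i := by
      have h4 : ∑ i, ((c i : ℝ) - D * l y i) • rv (w i) = 0 := by
        have h5 : rv (D • y) = (D : ℝ) • rv y := by
          ext j; simp [rv]
        have h6 : ∑ i, (c i : ℝ) • rv (w i) = (D : ℝ) • ∑ i, l y i • rv (w i) := by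
          rw [← hl y hyV, ← h5, ← hc, rv_sum]
        rw [Finset.smul_sum] at h6
        simp only [sub_smul, Finset.sum_sub_distrib, h6, mul_smul, sub_self]
      intro i
      have := (Fintype.linearIndependent_iff.1 hli') _ h4 i
      linarith
    intro i
    -- `|l y i| ≤ N`
    have h7 : |l y i| ≤ N := by
      by_contra hcon
      rw [not_le] at hcon
      set L := |l y i| with hL
      have hL0 : 0 < L := lt_of_le_of_lt (Nat.cast_nonneg N) hcon
      have hmem : ∀ m ∈ Finset.range (N + 1), red (m / L) y ∈ F := by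
        intro m hm
        have hm1 : (m : ℝ) ≤ N := by
          exact_mod_cast Nat.lt_succ_iff.1 (Finset.mem_range.1 hm)
        have hm2 : (m : ℝ) / L ≤ 1 := by
          rw [div_le_one hL0]; linarith
        have hm3 : 0 ≤ (m : ℝ) / L := by positivity
        rw [hF, mem_lat hB2.cpt]
        have e1 : rv (red (m / L) y) = (m / L : ℝ) • rv y
            - ((m / L : ℝ) • rv y - rv (red (m / L) y)) := by abel
        rw [e1]
        have e2 : (m / L : ℝ) • rv y ∈ (2 : ℝ) • B := by
          obtain ⟨b, hb, hby⟩ := hY y hy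
          have h8 : (m / L : ℝ) • rv y ∈ ((m / L : ℝ) * 2) • B :=
            ⟨b, hb, by rw [← hby]; simp only [smul_smul]⟩
          exact hB.smul_mono (by positivity) (by linarith) h8
        exact hB.smul_mono (by positivity) (by linarith)
          (hB.sub_mem (by norm_num) (by positivity) e2 (hcomb _ y hyV))
      have hinj : Set.InjOn (fun m : ℕ => red (m / L) y) (Finset.range (N + 1) : Set ℕ) := by
        intro m _ m' _ h
        have h8 : red (m / L) y = red (m' / L) y := h
        have h9 : ∑ i, ((⌊(m / L : ℝ) * l y i⌋ : ℝ) - (⌊(m' / L : ℝ) * l y i⌋ : ℝ)) • rv (w i)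
            = 0 := by
          have h10 : rv (red (m / L) y) = rv (red (m' / L) y) := by rw [h8]
          rw [hred] at h10
          simp only at h10
          rw [rv_sum, rv_sum] at h10
          simp only [sub_smul, Finset.sum_sub_distrib, h10, sub_self]
        have h11 := (Fintype.linearIndependent_iff.1 hli') _ h9 i
        have h12 : ⌊(m / L : ℝ) * l y i⌋ = ⌊(m' / L : ℝ) * l y i⌋ := by
          have : (⌊(m / L : ℝ) * l y i⌋ : ℝ) = (⌊(m' / L : ℝ) * l y i⌋ : ℝ) := by linarith
          exact_mod_cast this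
        rcases le_total 0 (l y i) with hs | hs
        · have e : l y i = L := by rw [hL, abs_of_nonneg hs]
          rw [e, div_mul_cancel₀ _ hL0.ne', div_mul_cancel₀ _ hL0.ne'] at h12
          simpa using h12
        · have e : l y i = -L := by rw [hL, abs_of_nonpos hs, neg_neg]
          rw [e, mul_neg, mul_neg, div_mul_cancel₀ _ hL0.ne', div_mul_cancel₀ _ hL0.ne'] at h12
          have e2 : ∀ m : ℕ, (-(m : ℝ)) = ((-(m : ℤ) : ℤ) : ℝ) := fun m => by push_cast; rfl
          rw [e2, e2, Int.floor_intCast, Int.floor_intCast] at h12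
          omega
      have h13 := Finset.card_le_card_of_injOn _ hmem hinj
      rw [Finset.card_range] at h13
      omega
    have h8 : |(c i : ℝ)| ≤ D * N := by
      rw [h3 i, abs_mul, Nat.abs_cast]
      exact mul_le_mul_of_nonneg_left h7 (by positivity)
    exact_mod_cast h8
  -- padding
  obtain ⟨em⟩ : Nonempty (κ ↪ Fin R) := by
    rw [Function.Embedding.nonempty_iff_card_le, Fintype.card_fin]
    exact hκd.trans hdR
  refine ⟨Function.extend em w (fun _ => 0), D, ?_, hQ1, hQF.trans hFN, ?_⟩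
  · intro j
    by_cases hj : ∃ i, em i = j
    · obtain ⟨i, rfl⟩ := hj
      rw [em.injective.extend_apply]
      exact hwY i
    · rw [Function.extend_apply' _ _ _ hj]
      exact hY0
  · intro y hy
    obtain ⟨c, hc1, hc2⟩ := hcoef y hy
    refine ⟨Function.extend em c (fun _ => 0), ?_, ?_⟩
    · intro j
      by_cases hj : ∃ i, em i = j
      · obtain ⟨i, rfl⟩ := hj
        rw [em.injective.extend_apply]
        exact hc1 i
      · rw [Function.extend_apply' _ _ _ hj]
        simp only [abs_zero]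
        positivity
    · rw [hc2]
      rw [← Finset.sum_subset (Finset.subset_univ (Finset.univ.map em))]
      · rw [Finset.sum_map]
        refine Finset.sum_congr rfl fun i _ => ?_
        rw [em.injective.extend_apply, em.injective.extend_apply]
      · intro j _ hj
        have hj' : ¬ ∃ i, em i = j := by
          rintro ⟨i, rfl⟩
          exact hj (Finset.mem_map_of_mem em (Finset.mem_univ i))
        rw [Function.extend_apply' _ _ _ hj', zero_smul]

end Pool.Agent.W_96b415_h42
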