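import Pool.Agent.W_96b415_h42.Pair
import Pool.Agent.W_MP_96b415_co.Main

/-!
# Centres which see few distances to a set of small doubling

Let every point `x` of `X` see at most `|Q| / 3` distances to `Q`. Then, on average, `x` lies on the
bisectors of many pairs of points of `Q` with non-parallel differences `I`, `J`; for fixed `I`, `J`
such points `x` form a structured set.
-/

set_option autoImplicit false

open scoped Pointwise

namespace Pool.Agent.W_96b415_h42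

open Pool.Agent.W_MP_96b415_co

/-- squared norm -/
def nsq (p : ℝ × ℝ) : ℝ := p.1 ^ 2 + p.2 ^ 2

/-- `x` has the same distance to `q` and to `q - I`, both in `Q`. -/
def Good (Q : Finset (ℝ × ℝ)) (x I : ℝ × ℝ) : Prop :=
  ∃ q ∈ Q, q - I ∈ Q ∧ nsq (x - q) = nsq (x - (q - I))

theorem exists_smul {a b : ℝ × ℝ} (ha : a ≠ 0) (h : dt a b = 0) : ∃ μ : ℝ, b = μ • a := by
  simp only [dt] at h
  by_cases h1 : a.1 = 0
  · have h2 : a.2 ≠ 0 := fun h' => ha (Prod.ext h1 h')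
    refine ⟨b.2 / a.2, Prod.ext ?_ ?_⟩
    · simp only [Prod.smul_fst, smul_eq_mul, h1, mul_zero]
      rw [h1, zero_mul, zero_sub, neg_eq_zero] at h
      exact (mul_eq_zero.1 h).resolve_left h2
    · simp only [Prod.smul_snd, smul_eq_mul]
      field_simp
  · refine ⟨b.1 / a.1, Prod.ext ?_ ?_⟩
    · simp only [Prod.smul_fst, smul_eq_mul]
      field_simp
    · simp only [Prod.smul_snd, smul_eq_mul]
      field_simp
      linarith

/-- pairs of points of `Q` with the same distance to `x` -/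
noncomputable def Rr (Q : Finset (ℝ × ℝ)) (x : ℝ × ℝ) : Finset ((ℝ × ℝ) × (ℝ × ℝ)) :=
  Q.offDiag.filter (fun r => nsq (x - r.1) = nsq (x - r.2))

theorem rr_large (Q : Finset (ℝ × ℝ)) (x : ℝ × ℝ) (D : ℕ) (hQ : Q.Nonempty)
    (hD : (Q.image (fun q => nsq (x - q))).card ≤ D) (h3 : 3 * D ≤ Q.card) :
    2 * Q.card ≤ (Rr Q x).card := by
  classical
  have h1 := sq_card_le_card_image_mul Q (fun q => nsq (x - q))
  have h2 : ((Q ×ˢ Q).filter (fun r => nsq (x - r.1) = nsq (x - r.2))).card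
      ≤ Q.card + (Rr Q x).card := by
    have h4 : (Q ×ˢ Q).filter (fun r => nsq (x - r.1) = nsq (x - r.2)) ⊆ Q.diag ∪ Rr Q x := by
      intro q hq
      obtain ⟨h5, h6⟩ := Finset.mem_filter.1 hq
      obtain ⟨h7, h8⟩ := Finset.mem_product.1 h5
      by_cases h9 : q.1 = q.2
      · exact Finset.mem_union_left _ (Finset.mem_diag.2 ⟨h7, h9⟩)
      · exact Finset.mem_union_right _ (Finset.mem_filter.2
          ⟨Finset.mem_offDiag.2 ⟨h7, h8, h9⟩, h6⟩)
    refine (Finset.card_le_card h4).trans ((Finset.card_union_le _ _).trans ?_)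
    rw [Finset.diag_card]
  have h4 : Q.card ^ 2 ≤ D * (Q.card + (Rr Q x).card) := h1.trans (Nat.mul_le_mul hD h2)
  have h5 : 0 < Q.card := hQ.card_pos
  have h6 : Q.card * (3 * Q.card) ≤ Q.card * (Q.card + (Rr Q x).card) := by
    calc Q.card * (3 * Q.card) = 3 * Q.card ^ 2 := by ring
      _ ≤ 3 * (D * (Q.card + (Rr Q x).card)) := Nat.mul_le_mul_left _ h4
      _ = (3 * D) * (Q.card + (Rr Q x).card) := by ring
      _ ≤ _ := Nat.mul_le_mul_right _ h3
  have h7 := Nat.le_of_mul_le_mul_left h6 h5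
  omega

theorem nsq_sub_sub (x q I : ℝ × ℝ) (h : nsq (x - q) = nsq (x - (q - I))) :
    2 * ((x.1 - q.1) * I.1 + (x.2 - q.2) * I.2) = -nsq I := by
  simp only [nsq, Prod.fst_sub, Prod.snd_sub] at h ⊢
  linear_combination -h

/-- parallel pairs -/
theorem rr_parallel (Q : Finset (ℝ × ℝ)) (x v : ℝ × ℝ) (hv : v ≠ 0) :
    ((Rr Q x).filter (fun r => dt v (r.1 - r.2) = 0)).card ≤ Q.card := by
  classical
  refine Finset.card_le_card_of_injOn (fun r => r.1) ?_ ?_
  · intro r hr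
    obtain ⟨h1, -⟩ := Finset.mem_filter.1 (Finset.mem_coe.1 hr)
    exact Finset.mem_coe.2 (Finset.mem_offDiag.1 (Finset.mem_filter.1 h1).1).1
  · intro r hr s hs hrs
    obtain ⟨h1, h2⟩ := Finset.mem_filter.1 (Finset.mem_coe.1 hr)
    obtain ⟨h3, h4⟩ := Finset.mem_filter.1 (Finset.mem_coe.1 hs)
    obtain ⟨h5, h6⟩ := Finset.mem_filter.1 h1
    obtain ⟨h7, h8⟩ := Finset.mem_filter.1 h3
    obtain ⟨-, -, hne⟩ := Finset.mem_offDiag.1 h5
    obtain ⟨-, -, hne'⟩ := Finset.mem_offDiag.1 h7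
    have e : r.1 = s.1 := hrs
    obtain ⟨l, hl⟩ := exists_smul hv h2
    obtain ⟨m, hm⟩ := exists_smul hv h4
    have h6' : nsq (x - r.1) = nsq (x - (r.1 - (r.1 - r.2))) := by rw [sub_sub_cancel]; exact h6
    have h8' : nsq (x - s.1) = nsq (x - (s.1 - (s.1 - s.2))) := by rw [sub_sub_cancel]; exact h8
    have k1 := nsq_sub_sub x r.1 (r.1 - r.2) h6'
    have k2 := nsq_sub_sub x s.1 (s.1 - s.2) h8'
    rw [hl] at k1
    rw [hm, ← e] at k2
    simp only [nsq, Prod.smul_fst, Prod.smul_snd, smul_eq_mul] at k1 k2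
    have hl0 : l ≠ 0 := by
      rintro rfl
      rw [zero_smul] at hl
      exact hne (sub_eq_zero.1 hl)
    have hm0 : m ≠ 0 := by
      rintro rfl
      rw [zero_smul] at hm
      exact hne' (sub_eq_zero.1 hm)
    have hv2 : 0 < v.1 ^ 2 + v.2 ^ 2 := by
      rcases (not_and_or.1 (fun h : v.1 = 0 ∧ v.2 = 0 => hv (Prod.ext h.1 h.2))) with h | h
      · have := sq_pos_of_ne_zero h; positivity
      · have := sq_pos_of_ne_zero h; positivity
    have k3 : 2 * ((x.1 - r.1.1) * v.1 + (x.2 - r.1.2) * v.2) = -(l * (v.1 ^ 2 + v.2 ^ 2)) := by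
      apply mul_left_cancel₀ hl0
      linear_combination k1
    have k4 : 2 * ((x.1 - r.1.1) * v.1 + (x.2 - r.1.2) * v.2) = -(m * (v.1 ^ 2 + v.2 ^ 2)) := by
      apply mul_left_cancel₀ hm0
      linear_combination k2
    have k5 : l = m := by
      apply mul_right_cancel₀ hv2.ne'
      linarith
    have k6 : r.1 - r.2 = s.1 - s.2 := by rw [hl, hm, k5]
    refine Prod.ext e ?_
    rw [e] at k6
    exact sub_right_inj.1 k6

/-- pairs of pairs with non-parallel differences -/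
noncomputable def Om (Q : Finset (ℝ × ℝ)) (x : ℝ × ℝ) :
    Finset (((ℝ × ℝ) × (ℝ × ℝ)) × ((ℝ × ℝ) × (ℝ × ℝ))) :=
  (Rr Q x ×ˢ Rr Q x).filter (fun t => dt (t.1.1 - t.1.2) (t.2.1 - t.2.2) ≠ 0)

theorem om_large (Q : Finset (ℝ × ℝ)) (x : ℝ × ℝ) (D : ℕ) (hQ : Q.Nonempty)
    (hD : (Q.image (fun q => nsq (x - q))).card ≤ D) (h3 : 3 * D ≤ Q.card) :
    2 * Q.card ^ 2 ≤ (Om Q x).card := by
  classical
  have h1 := rr_large Q x D hQ hD h3
  have h2 : ((Rr Q x ×ˢ Rr Q x).filter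
      (fun t => ¬ dt (t.1.1 - t.1.2) (t.2.1 - t.2.2) ≠ 0)).card ≤ (Rr Q x).card * Q.card := by
    rw [Finset.card_eq_sum_card_fiberwise (f := fun t : ((ℝ × ℝ) × (ℝ × ℝ)) × _ => t.1)
      (t := Rr Q x)]
    · calc _ ≤ ∑ _r ∈ Rr Q x, Q.card := by
            refine Finset.sum_le_sum fun r hr => ?_
            obtain ⟨h5, -⟩ := Finset.mem_filter.1 hr
            obtain ⟨-, -, hne⟩ := Finset.mem_offDiag.1 h5
            refine le_trans ?_ (rr_parallel Q x (r.1 - r.2) (sub_ne_zero.2 hne))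
            refine Finset.card_le_card_of_injOn (fun t => t.2) ?_ ?_
            · intro t ht
              obtain ⟨h6, h7⟩ := Finset.mem_filter.1 (Finset.mem_coe.1 ht)
              obtain ⟨h8, h9⟩ := Finset.mem_filter.1 h6
              refine Finset.mem_coe.2 (Finset.mem_filter.2 ⟨(Finset.mem_product.1 h8).2, ?_⟩)
              rw [← h7]
              exact not_not.1 h9
            · intro t ht s hs hts
              have a := (Finset.mem_filter.1 (Finset.mem_coe.1 ht)).2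
              have b := (Finset.mem_filter.1 (Finset.mem_coe.1 hs)).2
              exact Prod.ext (a.trans b.symm) hts
        _ = _ := by rw [Finset.sum_const, smul_eq_mul]
    · intro t ht
      exact Finset.mem_coe.2 (Finset.mem_product.1
        (Finset.mem_filter.1 (Finset.mem_coe.1 ht)).1).1
  have h4 := Finset.card_filter_add_card_filter_not (s := Rr Q x ×ˢ Rr Q x)
    (fun t => dt (t.1.1 - t.1.2) (t.2.1 - t.2.2) ≠ 0)
  rw [Finset.card_product] at h4
  unfold Om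
  nlinarith

/-- the number of pairs with a given difference -/
theorem rr_fiber (Q : Finset (ℝ × ℝ)) (x I : ℝ × ℝ) :
    ((Rr Q x).filter (fun r => r.1 - r.2 = I)).card ≤ kk Q (rot I) := by
  classical
  rcases ((Rr Q x).filter (fun r => r.1 - r.2 = I)).eq_empty_or_nonempty with h0 | ⟨s, hs⟩
  · rw [h0]; simp
  obtain ⟨hs1, hs2⟩ := Finset.mem_filter.1 hs
  obtain ⟨hs3, hs4⟩ := Finset.mem_filter.1 hs1
  obtain ⟨hs5, hs6, -⟩ := Finset.mem_offDiag.1 hs3
  unfold kk
  refine Finset.card_le_card_of_injOn (fun r => r.1 - s.1) ?_ ?_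
  · intro r hr
    obtain ⟨h1, h2⟩ := Finset.mem_filter.1 (Finset.mem_coe.1 hr)
    obtain ⟨h3, h4⟩ := Finset.mem_filter.1 h1
    obtain ⟨h5, h6, -⟩ := Finset.mem_offDiag.1 h3
    refine Finset.mem_coe.2 (Finset.mem_filter.2 ⟨Finset.sub_mem_sub h5 hs5, ?_⟩)
    have e1 : nsq (x - r.1) = nsq (x - (r.1 - I)) := by rw [← h2, sub_sub_cancel]; exact h4
    have e2 : nsq (x - s.1) = nsq (x - (s.1 - I)) := by rw [← hs2, sub_sub_cancel]; exact hs4
    have k1 := nsq_sub_sub x r.1 I e1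
    have k2 := nsq_sub_sub x s.1 I e2
    simp only [dt, rot, Prod.fst_sub, Prod.snd_sub]
    linarith
  · intro r hr r' hr' hrr
    have h2 := (Finset.mem_filter.1 (Finset.mem_coe.1 hr)).2
    have h2' := (Finset.mem_filter.1 (Finset.mem_coe.1 hr')).2
    have e : r.1 = r'.1 := sub_left_injective hrr
    refine Prod.ext e ?_
    rw [e, ← h2'] at h2
    exact sub_right_inj.1 h2

/-- The double counting. -/
theorem core (Q X : Finset (ℝ × ℝ)) (D : ℕ) (hQ : Q.Nonempty)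
    (hD : ∀ x ∈ X, (Q.image (fun q => nsq (x - q))).card ≤ D) (h3 : 3 * D ≤ Q.card)
    (B S : ℝ) (hB0 : 0 ≤ B)
    (hB : ∀ I J : ℝ × ℝ, dt I J ≠ 0 → ∀ Y ⊆ X, (∀ x ∈ Y, Good Q x I ∧ Good Q x J) →
      (Y.card : ℝ) ≤ B)
    (hS : ∑ e ∈ (Q - Q).erase 0, (kk Q (rot e) : ℝ) ≤ S) :
    2 * (X.card : ℝ) * (Q.card : ℝ) ^ 2 ≤ B * S ^ 2 := by
  classical
  set E := (Q - Q).erase 0 with hE
  set Δ := (E ×ˢ E).filter (fun q => dt q.1 q.2 ≠ 0) with hΔ
  set κ : ℝ × ℝ → ℝ := fun e => (kk Q (rot e) : ℝ) with hκ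
  have hκ0 : ∀ e, 0 ≤ κ e := fun e => by positivity
  -- lower bound
  have hlow : 2 * (X.card : ℝ) * (Q.card : ℝ) ^ 2 ≤ ∑ x ∈ X, ((Om Q x).card : ℝ) := by
    calc 2 * (X.card : ℝ) * (Q.card : ℝ) ^ 2 = ∑ _x ∈ X, (2 * (Q.card : ℝ) ^ 2) := by
          rw [Finset.sum_const, nsmul_eq_mul]; ring
      _ ≤ _ := by
          refine Finset.sum_le_sum fun x hx => ?_
          have := om_large Q x D hQ (hD x hx) h3
          exact_mod_cast this
  refine hlow.trans ?_
  -- upper bound for one `x`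
  have hone : ∀ x ∈ X, ((Om Q x).card : ℝ) ≤
      ∑ q ∈ Δ, (if Good Q x q.1 ∧ Good Q x q.2 then κ q.1 * κ q.2 else 0) := by
    intro x _
    have hmaps : ∀ t ∈ Om Q x, (t.1.1 - t.1.2, t.2.1 - t.2.2) ∈ Δ := by
      intro t ht
      obtain ⟨h1, h2⟩ := Finset.mem_filter.1 ht
      obtain ⟨h4, h5⟩ := Finset.mem_product.1 h1
      obtain ⟨a1, a2, a3⟩ := Finset.mem_offDiag.1 (Finset.mem_filter.1 h4).1
      obtain ⟨b1, b2, b3⟩ := Finset.mem_offDiag.1 (Finset.mem_filter.1 h5).1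
      refine Finset.mem_filter.2 ⟨Finset.mem_product.2
        ⟨Finset.mem_erase.2 ⟨sub_ne_zero.2 a3, Finset.sub_mem_sub a1 a2⟩,
        Finset.mem_erase.2 ⟨sub_ne_zero.2 b3, Finset.sub_mem_sub b1 b2⟩⟩, h2⟩
    rw [Finset.card_eq_sum_card_fiberwise hmaps]
    push_cast
    refine Finset.sum_le_sum fun q _ => ?_
    set F := (Om Q x).filter (fun t => (t.1.1 - t.1.2, t.2.1 - t.2.2) = q) with hF
    have hFsub : F ⊆ ((Rr Q x).filter (fun r => r.1 - r.2 = q.1)) ×ˢ
        ((Rr Q x).filter (fun r => r.1 - r.2 = q.2)) := by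
      intro t ht
      obtain ⟨h1, h2⟩ := Finset.mem_filter.1 ht
      obtain ⟨h4, h5⟩ := Finset.mem_product.1 (Finset.mem_filter.1 h1).1
      exact Finset.mem_product.2 ⟨Finset.mem_filter.2 ⟨h4, congrArg Prod.fst h2⟩,
        Finset.mem_filter.2 ⟨h5, congrArg Prod.snd h2⟩⟩
    split_ifs with hg
    · have h1 : F.card ≤ kk Q (rot q.1) * kk Q (rot q.2) := by
        refine (Finset.card_le_card hFsub).trans ?_
        rw [Finset.card_product]
        exact Nat.mul_le_mul (rr_fiber Q x q.1) (rr_fiber Q x q.2)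
      have h2 : (F.card : ℝ) ≤ (kk Q (rot q.1) : ℝ) * kk Q (rot q.2) := by exact_mod_cast h1
      exact h2
    · have h1 : F = ∅ := by
        rw [Finset.eq_empty_iff_forall_notMem]
        intro t ht
        apply hg
        obtain ⟨h4, h5⟩ := Finset.mem_product.1 (hFsub ht)
        have key : ∀ r : (ℝ × ℝ) × (ℝ × ℝ), ∀ I : ℝ × ℝ,
            r ∈ (Rr Q x).filter (fun r => r.1 - r.2 = I) → Good Q x I := by
          intro r I hr
          obtain ⟨c1, c2⟩ := Finset.mem_filter.1 hr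
          obtain ⟨c3, c4⟩ := Finset.mem_filter.1 c1
          obtain ⟨c5, c6, -⟩ := Finset.mem_offDiag.1 c3
          refine ⟨r.1, c5, ?_, ?_⟩
          · rw [← c2, sub_sub_cancel]; exact c6
          · rw [← c2, sub_sub_cancel]; exact c4
        exact ⟨key t.1 q.1 h4, key t.2 q.2 h5⟩
      rw [h1]
      simp
  calc ∑ x ∈ X, ((Om Q x).card : ℝ)
      ≤ ∑ x ∈ X, ∑ q ∈ Δ, (if Good Q x q.1 ∧ Good Q x q.2 then κ q.1 * κ q.2 else 0) :=
        Finset.sum_le_sum hone
    _ = ∑ q ∈ Δ, ∑ x ∈ X, (if Good Q x q.1 ∧ Good Q x q.2 then κ q.1 * κ q.2 else 0) :=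
        Finset.sum_comm
    _ ≤ ∑ q ∈ Δ, B * (κ q.1 * κ q.2) := by
        refine Finset.sum_le_sum fun q hq => ?_
        rw [← Finset.sum_filter, Finset.sum_const, nsmul_eq_mul]
        refine mul_le_mul_of_nonneg_right ?_ (mul_nonneg (hκ0 _) (hκ0 _))
        exact hB q.1 q.2 (Finset.mem_filter.1 hq).2 _ (Finset.filter_subset _ _)
          (fun x hx => (Finset.mem_filter.1 hx).2)
    _ ≤ ∑ q ∈ E ×ˢ E, B * (κ q.1 * κ q.2) :=
        Finset.sum_le_sum_of_subset_of_nonneg (Finset.filter_subset _ _)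
          (fun q _ _ => mul_nonneg hB0 (mul_nonneg (hκ0 _) (hκ0 _)))
    _ = B * (∑ e ∈ E, κ e) ^ 2 := by
        rw [← Finset.mul_sum, sq, Finset.sum_mul_sum, Finset.sum_product]
    _ ≤ B * S ^ 2 := by
        refine mul_le_mul_of_nonneg_left ?_ hB0
        exact pow_le_pow_left₀ (Finset.sum_nonneg fun e _ => hκ0 e) hS 2

/-- The points on the bisectors belonging to two fixed differences lie in a progression. -/
theorem cont_two (W1 W2 X : Finset (ℝ × ℝ)) (R : ℕ) (H : ℝ) (h1 : InGap R H W1)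
    (h2 : InGap R H W2) (I J : ℝ × ℝ) (hIJ : dt I J ≠ 0)
    (hX : ∀ x ∈ X, (∃ q ∈ W1, nsq (x - q) = nsq (x - (q - I))) ∧
      (∃ q ∈ W2, nsq (x - q) = nsq (x - (q - J)))) : InGap (R + R) H X := by
  classical
  obtain ⟨o1, a, ha⟩ := h1
  obtain ⟨o2, b, hb⟩ := h2
  -- inner product
  set ip : ℝ × ℝ → ℝ × ℝ → ℝ := fun p q => p.1 * q.1 + p.2 * q.2 with hip
  have hipa : ∀ p q r : ℝ × ℝ, ip p (q + r) = ip p q + ip p r := by
    intro p q r; simp only [hip, Prod.fst_add, Prod.snd_add]; ring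
  have hips : ∀ (p q : ℝ × ℝ) (c : ℝ), ip p (c • q) = c * ip p q := by
    intro p q c; simp only [hip, Prod.smul_fst, Prod.smul_snd, smul_eq_mul]; ring
  have hipsum : ∀ (p : ℝ × ℝ) (f : Fin R → ℝ × ℝ), ip p (∑ i, f i) = ∑ i, ip p (f i) := by
    intro p f
    simp only [hip, Prod.fst_sum, Prod.snd_sum, Finset.mul_sum, Finset.sum_add_distrib]
  set U : ℝ × ℝ := (1 / dt I J) • ((J.2, -J.1) : ℝ × ℝ) with hU
  set V : ℝ × ℝ := (1 / dt I J) • ((-I.2, I.1) : ℝ × ℝ) with hV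
  have hx : ∀ x : ℝ × ℝ, x = ip I x • U + ip J x • V := by
    intro x
    have hd : I.1 * J.2 - I.2 * J.1 ≠ 0 := hIJ
    apply Prod.ext
    · simp only [hip, hU, hV, Prod.fst_add, Prod.smul_fst, smul_eq_mul, dt]
      field_simp
      ring
    · simp only [hip, hU, hV, Prod.snd_add, Prod.smul_snd, smul_eq_mul, dt]
      field_simp
      ring
  refine ⟨(ip I o1 - nsq I / 2) • U + (ip J o2 - nsq J / 2) • V,
    Fin.append (fun i => ip I (a i) • U) (fun i => ip J (b i) • V), ?_⟩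
  intro x hxX
  obtain ⟨⟨q, hq, e1⟩, p, hp, e2⟩ := hX x hxX
  obtain ⟨y, hy, hqy⟩ := ha q hq
  obtain ⟨z, hz, hpz⟩ := hb p hp
  refine ⟨Fin.append y z, ?_, ?_⟩
  · intro i
    refine Fin.addCases (fun i => ?_) (fun i => ?_) i
    · rw [Fin.append_left]; exact hy i
    · rw [Fin.append_right]; exact hz i
  · rw [Fin.sum_univ_add]
    simp only [Fin.append_left, Fin.append_right]
    have k1 := nsq_sub_sub x q I e1
    have k2 := nsq_sub_sub x p J e2
    have m1 : ip I x = ip I q - nsq I / 2 := by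
      simp only [hip]
      linarith
    have m2 : ip J x = ip J p - nsq J / 2 := by
      simp only [hip]
      linarith
    have n1 : ip I q = ip I o1 + ∑ i, ((y i : ℤ) : ℝ) * ip I (a i) := by
      rw [hqy, hipa, hipsum]
      simp only [hips]
    have n2 : ip J p = ip J o2 + ∑ i, ((z i : ℤ) : ℝ) * ip J (b i) := by
      rw [hpz, hipa, hipsum]
      simp only [hips]
    have s1 : ∑ i, ((y i : ℤ) : ℝ) • (ip I (a i) • U) = (∑ i, ((y i : ℤ) : ℝ) * ip I (a i)) • U := by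
      rw [Finset.sum_smul]
      refine Finset.sum_congr rfl fun i _ => ?_
      rw [smul_smul]
    have s2 : ∑ i, ((z i : ℤ) : ℝ) • (ip J (b i) • V) = (∑ i, ((z i : ℤ) : ℝ) * ip J (b i)) • V := by
      rw [Finset.sum_smul]
      refine Finset.sum_congr rfl fun i _ => ?_
      rw [smul_smul]
    rw [s1, s2]
    conv_lhs => rw [hx x, m1, m2, n1, n2]
    module

end Pool.Agent.W_96b415_h42
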