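import Pool.Agent.W_MP_96b415_co.Line

/-!
# Rich directions of a planar set of small doubling

If `|Q + (Q - Q) + (Q - Q)| ≤ L |Q|`, then the number of directions `w` for which `Q - Q` has at
least `k` elements parallel to `w` is at most `C L ^ 2 |Q| / k ^ 2 + C`.  (For such sets this
replaces the theorem of Szemeredi and Trotter.)  Proof: for every direction `w` let `h w` be the
width of a strip in the direction `w` which contains about `τ` of the lines in the direction `w`
through the points; take the two directions for which the parallelogram cut out by two strips has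
the smallest area, and count pairs of points in the fullest cell of the corresponding tiling.
-/

set_option autoImplicit false

open scoped Pointwise

namespace Pool.Agent.W_96b415_h42

open Pool.Agent.W_MP_96b415_co

/-- determinant -/
def dt (a b : ℝ × ℝ) : ℝ := a.1 * b.2 - a.2 * b.1

theorem dt_add (w a b : ℝ × ℝ) : dt w (a + b) = dt w a + dt w b := by
  simp only [dt, Prod.fst_add, Prod.snd_add]; ring

theorem dt_sub (w a b : ℝ × ℝ) : dt w (a - b) = dt w a - dt w b := by
  simp only [dt, Prod.fst_sub, Prod.snd_sub]; ring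

theorem eq_zero_of_dt {u v x : ℝ × ℝ} (h : dt u v ≠ 0) (h1 : dt u x = 0) (h2 : dt v x = 0) :
    x = 0 := by
  simp only [dt] at h h1 h2
  apply Prod.ext
  · apply mul_left_cancel₀ h
    simp only [Prod.fst_zero, mul_zero]
    linear_combination v.1 * h1 - u.1 * h2
  · apply mul_left_cancel₀ h
    simp only [Prod.snd_zero, mul_zero]
    linear_combination v.2 * h1 - u.2 * h2

/-- a threshold -/
theorem threshold (D : Finset ℝ) (τ : ℕ) (hτ : 1 ≤ τ) (h : τ ≤ D.card) :
    ∃ h0 : ℝ, τ ≤ (D.filter (fun z => |z| ≤ h0)).card ∧ (D.filter (fun z => |z| < h0)).card < τ := by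
  classical
  set A := D.image (fun z => |z|) with hA
  set C := A.filter (fun h0 => τ ≤ (D.filter (fun z => |z| ≤ h0)).card) with hC
  have hDne : D.Nonempty := Finset.card_pos.1 (by omega)
  have hCne : C.Nonempty := by
    obtain ⟨z, hz, hmax⟩ := D.exists_max_image (fun z => |z|) hDne
    refine ⟨|z|, Finset.mem_filter.2 ⟨Finset.mem_image_of_mem _ hz, ?_⟩⟩
    rw [Finset.filter_true_of_mem fun y hy => hmax y hy]
    exact h
  refine ⟨C.min' hCne, (Finset.mem_filter.1 (C.min'_mem hCne)).2, ?_⟩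
  by_contra hcon
  rw [not_lt] at hcon
  set F := D.filter (fun z => |z| < C.min' hCne) with hF
  have hFne : F.Nonempty := Finset.card_pos.1 (by omega)
  obtain ⟨z, hz, hmax⟩ := F.exists_max_image (fun z => |z|) hFne
  obtain ⟨hzD, hzlt⟩ := Finset.mem_filter.1 hz
  have hzC : |z| ∈ C := by
    refine Finset.mem_filter.2 ⟨Finset.mem_image_of_mem _ hzD, hcon.trans ?_⟩
    refine Finset.card_le_card fun y hy => ?_
    exact Finset.mem_filter.2 ⟨(Finset.mem_filter.1 hy).1, hmax y hy⟩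
  exact absurd (C.min'_le _ hzC) (not_le.2 hzlt)

/-- few values in a short interval -/
theorem few_one (Z Y : Finset ℝ) (τ : ℕ) (h0 : ℝ)
    (h : ((Z - Z).filter (fun z => |z| < h0)).card < τ) (hY : Y ⊆ Z)
    (hd : ∀ y ∈ Y, ∀ y' ∈ Y, |y - y'| < h0) : Y.card ≤ τ := by
  classical
  rcases Y.eq_empty_or_nonempty with rfl | ⟨y0, hy0⟩
  · simp
  refine le_of_lt (lt_of_le_of_lt ?_ h)
  refine Finset.card_le_card_of_injOn (fun y => y - y0) ?_ ?_
  · intro y hy
    exact Finset.mem_coe.2 (Finset.mem_filter.2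
      ⟨Finset.sub_mem_sub (hY hy) (hY hy0), hd y hy y0 hy0⟩)
  · intro y _ y' _ hyy
    exact sub_left_injective hyy

theorem few_two (Z Y : Finset ℝ) (τ : ℕ) (h0 : ℝ)
    (h : ((Z - Z).filter (fun z => |z| < h0)).card < τ) (hY : Y ⊆ Z)
    (hd : ∀ y ∈ Y, ∀ y' ∈ Y, |y - y'| < 2 * h0) : Y.card ≤ 2 * τ := by
  classical
  rcases Y.eq_empty_or_nonempty with rfl | hne
  · simp
  set y0 := Y.min' hne with hy0
  have hy0Y : y0 ∈ Y := Y.min'_mem hne
  have hmin : ∀ y ∈ Y, y0 ≤ y := fun y hy => Y.min'_le y hy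
  have h1 := few_one Z (Y.filter (fun y => y < y0 + h0)) τ h0 h
    ((Finset.filter_subset _ _).trans hY) (by
      intro y hy y' hy'
      obtain ⟨a, b⟩ := Finset.mem_filter.1 hy
      obtain ⟨a', b'⟩ := Finset.mem_filter.1 hy'
      have c := hmin y a
      have c' := hmin y' a'
      rw [abs_lt]
      constructor <;> linarith)
  have h2 := few_one Z (Y.filter (fun y => ¬ y < y0 + h0)) τ h0 h
    ((Finset.filter_subset _ _).trans hY) (by
      intro y hy y' hy'
      obtain ⟨a, b⟩ := Finset.mem_filter.1 hy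
      obtain ⟨a', b'⟩ := Finset.mem_filter.1 hy'
      rw [not_lt] at b b'
      have c := (abs_lt.1 (hd y a y0 hy0Y)).2
      have c' := (abs_lt.1 (hd y' a' y0 hy0Y)).2
      rw [abs_lt]
      constructor <;> linarith)
  have h3 := Finset.card_filter_add_card_filter_not (s := Y) (fun y => y < y0 + h0)
  omega

/-- the number of strips which are met -/
theorem floors (Z : Finset ℝ) (τ : ℕ) (h0 : ℝ) (h0pos : 0 < h0)
    (h : τ ≤ ((Z - Z).filter (fun z => |z| ≤ h0)).card) :
    (Z.image (fun z => ⌊z / h0⌋)).card * τ ≤ 3 * (Z + (Z - Z)).card := by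
  classical
  set B := Z.image (fun z => ⌊z / h0⌋) with hB
  have hex : ∀ i : ℤ, ∃ z : ℝ, i ∈ B → z ∈ Z ∧ ⌊z / h0⌋ = i := by
    intro i
    by_cases hi : i ∈ B
    · obtain ⟨z, hz, hzi⟩ := Finset.mem_image.1 hi
      exact ⟨z, fun _ => ⟨hz, hzi⟩⟩
    · exact ⟨0, fun h => absurd h hi⟩
  choose ζ hζ using hex
  set D := (Z - Z).filter (fun z => |z| ≤ h0) with hD
  have h1 : (B ×ˢ D).card ≤ 3 * ((B ×ˢ D).image (fun q : ℤ × ℝ => ζ q.1 + q.2)).card := by
    refine Finset.card_le_mul_card_image (f := fun q : ℤ × ℝ => ζ q.1 + q.2) (B ×ˢ D) 3 ?_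
    intro y _
    have h2 : ((B ×ˢ D).filter (fun q : ℤ × ℝ => ζ q.1 + q.2 = y)).card
        ≤ (Finset.Icc (⌊y / h0⌋ - 1) (⌊y / h0⌋ + 1)).card := by
      refine Finset.card_le_card_of_injOn (fun q => q.1) ?_ ?_
      · intro q hq
        obtain ⟨hq1, hq2⟩ := Finset.mem_filter.1 (Finset.mem_coe.1 hq)
        obtain ⟨hq3, hq4⟩ := Finset.mem_product.1 hq1
        obtain ⟨-, hq5⟩ := Finset.mem_filter.1 hq4
        obtain ⟨-, hq6⟩ := hζ q.1 hq3
        rw [Finset.coe_Icc, Set.mem_Icc]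
        have h3 := abs_le.1 hq5
        have e1 : y / h0 = ζ q.1 / h0 + q.2 / h0 := by rw [← hq2, add_div]
        have e2 : -1 ≤ q.2 / h0 := by rw [le_div_iff₀ h0pos]; linarith
        have e3 : q.2 / h0 ≤ 1 := by rw [div_le_iff₀ h0pos]; linarith
        constructor
        · have : ⌊y / h0⌋ ≤ ⌊ζ q.1 / h0 + 1⌋ := Int.floor_le_floor (by rw [e1]; linarith)
          rw [Int.floor_add_one, hq6] at this
          linarith
        · have : ⌊ζ q.1 / h0 - 1⌋ ≤ ⌊y / h0⌋ := Int.floor_le_floor (by rw [e1]; linarith)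
          rw [Int.floor_sub_one, hq6] at this
          linarith
      · intro q hq q' hq' hqq
        have a := (Finset.mem_filter.1 (Finset.mem_coe.1 hq)).2
        have b := (Finset.mem_filter.1 (Finset.mem_coe.1 hq')).2
        have c : q.1 = q'.1 := hqq
        refine Prod.ext c ?_
        rw [c] at a
        linarith
    refine h2.trans ?_
    rw [Int.card_Icc]
    omega
  have h2 : (B ×ˢ D).image (fun q : ℤ × ℝ => ζ q.1 + q.2) ⊆ Z + (Z - Z) := by
    intro y hy
    obtain ⟨q, hq, rfl⟩ := Finset.mem_image.1 hy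
    obtain ⟨hq3, hq4⟩ := Finset.mem_product.1 hq
    exact Finset.add_mem_add (hζ q.1 hq3).1 (Finset.mem_filter.1 hq4).1
  calc B.card * τ ≤ B.card * D.card := Nat.mul_le_mul_left _ h
    _ = (B ×ˢ D).card := (Finset.card_product _ _).symm
    _ ≤ 3 * ((B ×ˢ D).image (fun q : ℤ × ℝ => ζ q.1 + q.2)).card := h1
    _ ≤ 3 * (Z + (Z - Z)).card := Nat.mul_le_mul_left _ (Finset.card_le_card h2)

/-- fibres of a projection -/
theorem fiber_mul (F E : Finset (ℝ × ℝ)) (w : ℝ × ℝ) :
    (F.image (dt w)).card * (E.filter (fun e => dt w e = 0)).card ≤ (F + E).card := by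
  classical
  have hex : ∀ z : ℝ, ∃ x : ℝ × ℝ, z ∈ F.image (dt w) → x ∈ F ∧ dt w x = z := by
    intro z
    by_cases hz : z ∈ F.image (dt w)
    · obtain ⟨x, hx⟩ := Finset.mem_image.1 hz
      exact ⟨x, fun _ => hx⟩
    · exact ⟨0, fun h => absurd h hz⟩
  choose ζ hζ using hex
  rw [← Finset.card_product]
  refine Finset.card_le_card_of_injOn (fun q => ζ q.1 + q.2) ?_ ?_
  · intro q hq
    obtain ⟨h1, h2⟩ := Finset.mem_product.1 (Finset.mem_coe.1 hq)
    exact Finset.mem_coe.2 (Finset.add_mem_add (hζ _ h1).1 (Finset.mem_filter.1 h2).1)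
  · intro q hq q' hq' hqq
    obtain ⟨h1, h2⟩ := Finset.mem_product.1 (Finset.mem_coe.1 hq)
    obtain ⟨h1', h2'⟩ := Finset.mem_product.1 (Finset.mem_coe.1 hq')
    have h3 : ζ q.1 + q.2 = ζ q'.1 + q'.2 := hqq
    have h4 := congrArg (dt w) h3
    rw [dt_add, dt_add, (hζ _ h1).2, (hζ _ h1').2, (Finset.mem_filter.1 h2).2,
      (Finset.mem_filter.1 h2').2, add_zero, add_zero] at h4
    refine Prod.ext h4 ?_
    rw [h4] at h3
    exact add_left_cancel h3

/-- counting pairs in a cell -/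
theorem cell_count (Qc W : Finset (ℝ × ℝ)) (τ : ℕ) (hτ : 1 ≤ τ) (hc : 4 * τ ≤ Qc.card)
    (hW : ∀ w ∈ W, ∀ w' ∈ W, w ≠ w' → dt w w' ≠ 0)
    (hv : ∀ w ∈ W, (Qc.image (dt w)).card ≤ 2 * τ) : W.card ≤ 4 * τ := by
  classical
  set N := Qc.card with hN
  set T : ℝ × ℝ → Finset ((ℝ × ℝ) × (ℝ × ℝ)) := fun w =>
    Qc.offDiag.filter (fun q => dt w q.1 = dt w q.2) with hT
  have h1 : ∀ w ∈ W, N ^ 2 ≤ 4 * τ * (T w).card := by
    intro w hw
    have h2 := sq_card_le_card_image_mul Qc (dt w)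
    have h3 : ((Qc ×ˢ Qc).filter (fun q => dt w q.1 = dt w q.2)).card ≤ N + (T w).card := by
      have h4 : (Qc ×ˢ Qc).filter (fun q => dt w q.1 = dt w q.2) ⊆ Qc.diag ∪ T w := by
        intro q hq
        obtain ⟨h5, h6⟩ := Finset.mem_filter.1 hq
        obtain ⟨h7, h8⟩ := Finset.mem_product.1 h5
        by_cases h9 : q.1 = q.2
        · exact Finset.mem_union_left _ (Finset.mem_diag.2 ⟨h7, h9⟩)
        · exact Finset.mem_union_right _ (Finset.mem_filter.2
            ⟨Finset.mem_offDiag.2 ⟨h7, h8, h9⟩, h6⟩)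
      refine (Finset.card_le_card h4).trans ((Finset.card_union_le _ _).trans ?_)
      rw [Finset.diag_card]
    have h4 : N ^ 2 ≤ 2 * τ * (N + (T w).card) :=
      h2.trans (Nat.mul_le_mul (hv w hw) h3)
    nlinarith
  have hdisj : (W : Set (ℝ × ℝ)).PairwiseDisjoint T := by
    intro w hw w' hw' hne
    rw [Function.onFun, Finset.disjoint_left]
    intro q hq hq'
    obtain ⟨h2, h3⟩ := Finset.mem_filter.1 hq
    obtain ⟨-, h4⟩ := Finset.mem_filter.1 hq'
    obtain ⟨-, -, h5⟩ := Finset.mem_offDiag.1 h2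
    have h6 := eq_zero_of_dt (hW w hw w' hw' hne) (x := q.1 - q.2)
      (by rw [dt_sub, h3, sub_self]) (by rw [dt_sub, h4, sub_self])
    exact h5 (sub_eq_zero.1 h6)
  have h2 : ∑ w ∈ W, (T w).card ≤ N ^ 2 := by
    rw [← Finset.card_biUnion hdisj]
    calc (W.biUnion T).card ≤ Qc.offDiag.card :=
          Finset.card_le_card (Finset.biUnion_subset.2 fun w _ => Finset.filter_subset _ _)
      _ ≤ N ^ 2 := by
          rw [Finset.offDiag_card, sq]; exact Nat.sub_le _ _
  have h3 : W.card * N ^ 2 ≤ 4 * τ * N ^ 2 := by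
    calc W.card * N ^ 2 = ∑ _w ∈ W, N ^ 2 := by rw [Finset.sum_const, smul_eq_mul]
      _ ≤ ∑ w ∈ W, 4 * τ * (T w).card := Finset.sum_le_sum h1
      _ = 4 * τ * ∑ w ∈ W, (T w).card := by rw [Finset.mul_sum]
      _ ≤ 4 * τ * N ^ 2 := Nat.mul_le_mul_left _ h2
  exact Nat.le_of_mul_le_mul_right h3 (pow_pos (by omega) 2)

theorem abs_sub_lt_of_floor {a b h : ℝ} (hh : 0 < h) (e : ⌊a / h⌋ = ⌊b / h⌋) : |a - b| < h := by
  have h1 := Int.abs_sub_lt_one_of_floor_eq_floor e
  rw [← sub_div, abs_div, abs_of_pos hh, div_lt_one hh] at h1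
  exact h1

/-- The number of rich directions. -/
theorem dir_count (Q W : Finset (ℝ × ℝ)) (k τ : ℕ) (L : ℝ) (hk : 1 ≤ k) (hτ : 2 ≤ τ)
    (hL : ((Q + (Q - Q) + (Q - Q)).card : ℝ) ≤ L * Q.card)
    (hτk : 36 * L ^ 2 * Q.card ≤ τ * (k : ℝ) ^ 2) (hn : 4 * τ ≤ Q.card)
    (hW : ∀ w ∈ W, ∀ w' ∈ W, w ≠ w' → dt w w' ≠ 0)
    (hkw : ∀ w ∈ W, k ≤ ((Q - Q).filter (fun e => dt w e = 0)).card) : W.card ≤ 4 * τ + 2 := by
  classical
  have hQ0 : 0 < Q.card := by omega
  have hQne : Q.Nonempty := Finset.card_pos.1 hQ0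
  set Z : ℝ × ℝ → Finset ℝ := fun w => Q.image (dt w) with hZ
  have hZne : ∀ w, (Z w).Nonempty := fun w => hQne.image _
  have hZD : ∀ w, (Z w).card ≤ (Z w - Z w).card := fun w =>
    Finset.card_le_card_sub_left (hZne w)
  set Wf := W.filter (fun w => τ ≤ (Z w - Z w).card) with hWf
  have hex : ∀ w : ℝ × ℝ, ∃ h0 : ℝ, τ ≤ (Z w - Z w).card →
      τ ≤ ((Z w - Z w).filter (fun z => |z| ≤ h0)).card ∧
        ((Z w - Z w).filter (fun z => |z| < h0)).card < τ := by
    intro w
    by_cases h : τ ≤ (Z w - Z w).card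
    · obtain ⟨h0, h1⟩ := threshold (Z w - Z w) τ (by omega) h
      exact ⟨h0, fun _ => h1⟩
    · exact ⟨0, fun h' => absurd h' h⟩
  choose h hh using hex
  have hpos : ∀ w ∈ Wf, 0 < h w := by
    intro w hw
    obtain ⟨h1, -⟩ := hh w (Finset.mem_filter.1 hw).2
    by_contra hcon
    rw [not_lt] at hcon
    have h2 : ((Z w - Z w).filter (fun z => |z| ≤ h w)).card ≤ ({0} : Finset ℝ).card := by
      refine Finset.card_le_card fun z hz => ?_
      have h3 := (Finset.mem_filter.1 hz).2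
      have h4 : |z| = 0 := le_antisymm (h3.trans hcon) (abs_nonneg z)
      rw [Finset.mem_singleton]
      exact abs_eq_zero.1 h4
    rw [Finset.card_singleton] at h2
    omega
  have hsmall : ∀ w, w ∉ Wf → w ∈ W → ∀ Qc ⊆ Q, (Qc.image (dt w)).card ≤ 2 * τ := by
    intro w hw hwW Qc hQc
    have h1 : ¬ τ ≤ (Z w - Z w).card := fun h2 => hw (Finset.mem_filter.2 ⟨hwW, h2⟩)
    have h2 : (Qc.image (dt w)).card ≤ (Z w).card := Finset.card_le_card
      (Finset.image_subset_image hQc)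
    have := hZD w
    omega
  rcases Nat.lt_or_ge 1 Wf.card with hcard | hcard
  swap
  · have h1 : (W \ Wf).card ≤ 4 * τ := by
      refine cell_count Q (W \ Wf) τ (by omega) hn ?_ ?_
      · intro w hw w' hw' hne
        exact hW w (Finset.mem_sdiff.1 hw).1 w' (Finset.mem_sdiff.1 hw').1 hne
      · intro w hw
        exact hsmall w (Finset.mem_sdiff.1 hw).2 (Finset.mem_sdiff.1 hw).1 Q (Finset.Subset.refl _)
    have h2 := Finset.card_le_card_sdiff_add_card (s := W) (t := Wf)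
    omega
  -- two directions
  obtain ⟨a, ha, b, hb, hab⟩ := Finset.one_lt_card.1 hcard
  obtain ⟨⟨u, v⟩, huv, hmin⟩ := Wf.offDiag.exists_min_image
    (fun q : (ℝ × ℝ) × (ℝ × ℝ) => h q.1 * h q.2 / |dt q.1 q.2|)
    ⟨(a, b), Finset.mem_offDiag.2 ⟨ha, hb, hab⟩⟩
  obtain ⟨hu, hv, huv'⟩ := Finset.mem_offDiag.1 huv
  simp only at hu hv huv' hmin
  have huW := (Finset.mem_filter.1 hu).1
  have hvW := (Finset.mem_filter.1 hv).1
  have hd : dt u v ≠ 0 := hW u huW v hvW huv'
  have hd' : 0 < |dt u v| := abs_pos.2 hd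
  have hhu := hpos u hu
  have hhv := hpos v hv
  -- cells
  set cell : ℝ × ℝ → ℤ × ℤ := fun p => (⌊dt u p / h u⌋, ⌊dt v p / h v⌋) with hcell
  set cu := ((Z u).image (fun z => ⌊z / h u⌋)).card with hcu
  set cv := ((Z v).image (fun z => ⌊z / h v⌋)).card with hcv
  have hcells : (Q.image cell).card ≤ cu * cv := by
    rw [hcu, hcv, ← Finset.card_product]
    refine Finset.card_le_card fun c hc => ?_
    obtain ⟨p, hp, rfl⟩ := Finset.mem_image.1 hc
    exact Finset.mem_product.2 ⟨Finset.mem_image.2 ⟨dt u p, Finset.mem_image_of_mem _ hp, rfl⟩,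
      Finset.mem_image.2 ⟨dt v p, Finset.mem_image_of_mem _ hp, rfl⟩⟩
  have hline : ∀ w ∈ Wf, (((Z w).image (fun z => ⌊z / h w⌋)).card : ℝ) * τ * k
      ≤ 3 * (L * Q.card) := by
    intro w hw
    obtain ⟨hwW, hwτ⟩ := Finset.mem_filter.1 hw
    have h1 := floors (Z w) τ (h w) (hpos w hw) (hh w hwτ).1
    have h2 : (Z w + (Z w - Z w)) = (Q + (Q - Q)).image (dt w) := by
      ext z
      simp only [hZ, Finset.mem_add, Finset.mem_sub, Finset.mem_image]
      constructor
      · rintro ⟨_, ⟨p, hp, rfl⟩, _, ⟨_, ⟨p', hp', rfl⟩, _, ⟨p'', hp'', rfl⟩, rfl⟩, rfl⟩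
        exact ⟨p + (p' - p''), ⟨p, hp, _, ⟨p', hp', p'', hp'', rfl⟩, rfl⟩, by
          rw [dt_add, dt_sub]⟩
      · rintro ⟨_, ⟨p, hp, _, ⟨p', hp', p'', hp'', rfl⟩, rfl⟩, rfl⟩
        exact ⟨dt w p, ⟨p, hp, rfl⟩, _, ⟨_, ⟨p', hp', rfl⟩, _, ⟨p'', hp'', rfl⟩, rfl⟩, by
          rw [dt_add, dt_sub]⟩
    have h3 := fiber_mul (Q + (Q - Q)) (Q - Q) w
    rw [← h2] at h3
    have h4 : (Z w + (Z w - Z w)).card * k ≤ (Q + (Q - Q) + (Q - Q)).card :=
      (Nat.mul_le_mul_left _ (hkw w hwW)).trans h3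
    have h5 : ((Z w).image (fun z => ⌊z / h w⌋)).card * τ * k
        ≤ 3 * (Q + (Q - Q) + (Q - Q)).card := by
      calc ((Z w).image (fun z => ⌊z / h w⌋)).card * τ * k
          ≤ 3 * (Z w + (Z w - Z w)).card * k := Nat.mul_le_mul_right _ h1
        _ = 3 * ((Z w + (Z w - Z w)).card * k) := by ring
        _ ≤ _ := Nat.mul_le_mul_left _ h4
    have h6 : (((Z w).image (fun z => ⌊z / h w⌋)).card : ℝ) * τ * k
        ≤ 3 * ((Q + (Q - Q) + (Q - Q)).card : ℝ) := by exact_mod_cast h5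
    linarith
  have hcu' : (cu : ℝ) * τ * k ≤ 3 * (L * Q.card) := hline u hu
  have hcv' : (cv : ℝ) * τ * k ≤ 3 * (L * Q.card) := hline v hv
  -- the fullest cell
  obtain ⟨c, -, hc⟩ : ∃ c ∈ Q.image cell,
      Q.card ≤ (Q.image cell).card * (Q.filter (fun p => cell p = c)).card := by
    by_contra hcon
    push Not at hcon
    have h1 := Finset.card_eq_sum_card_image cell Q
    obtain ⟨c, hcm, hmax⟩ := (Q.image cell).exists_max_image
      (fun c => (Q.filter (fun p => cell p = c)).card) (hQne.image _)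
    have h2 := hcon c hcm
    have h3 : ∑ b ∈ Q.image cell, (Q.filter (fun p => cell p = b)).card
        ≤ (Q.image cell).card * (Q.filter (fun p => cell p = c)).card := by
      calc _ ≤ ∑ _b ∈ Q.image cell, (Q.filter (fun p => cell p = c)).card :=
            Finset.sum_le_sum hmax
        _ = _ := by rw [Finset.sum_const, smul_eq_mul]
    omega
  set Qc := Q.filter (fun p => cell p = c) with hQc
  have hk0 : (0 : ℝ) < k := by exact_mod_cast hk
  have hτ0 : (0 : ℝ) < τ := by exact_mod_cast (by omega : 0 < τ)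
  have hQr : (0 : ℝ) < Q.card := by exact_mod_cast hQ0
  have hNc : 4 * τ ≤ Qc.card := by
    have h1 : (Q.card : ℝ) ≤ cu * cv * Qc.card := by
      have : Q.card ≤ cu * cv * Qc.card := hc.trans (Nat.mul_le_mul_right _ hcells)
      exact_mod_cast this
    have h2 : ((cu : ℝ) * τ * k) * ((cv : ℝ) * τ * k) ≤ (3 * (L * Q.card)) * (3 * (L * Q.card)) :=
      mul_le_mul hcu' hcv' (by positivity) (le_trans (by positivity) hcu')
    -- `Q τ² k² ≤ 9 L² Q² Nc`
    have h3 : (Q.card : ℝ) * (τ ^ 2 * k ^ 2) ≤ Q.card * (9 * L ^ 2 * Q.card * Qc.card) := by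
      calc (Q.card : ℝ) * (τ ^ 2 * k ^ 2) ≤ (cu * cv * Qc.card) * (τ ^ 2 * k ^ 2) :=
            mul_le_mul_of_nonneg_right h1 (by positivity)
        _ = (((cu : ℝ) * τ * k) * ((cv : ℝ) * τ * k)) * Qc.card := by ring
        _ ≤ ((3 * (L * Q.card)) * (3 * (L * Q.card))) * Qc.card :=
            mul_le_mul_of_nonneg_right h2 (by positivity)
        _ = _ := by ring
    have h4 := le_of_mul_le_mul_left h3 hQr
    have h5 : (4 * τ : ℝ) * (τ * k ^ 2) ≤ Qc.card * (τ * k ^ 2) := by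
      calc (4 * τ : ℝ) * (τ * k ^ 2) = 4 * (τ ^ 2 * k ^ 2) := by ring
        _ ≤ 4 * (9 * L ^ 2 * Q.card * Qc.card) := by linarith
        _ = (36 * L ^ 2 * Q.card) * Qc.card := by ring
        _ ≤ (τ * (k : ℝ) ^ 2) * Qc.card := mul_le_mul_of_nonneg_right hτk (by positivity)
        _ = _ := by ring
    have h6 : (4 * τ : ℝ) ≤ Qc.card := le_of_mul_le_mul_right h5 (by positivity)
    exact_mod_cast h6
  -- the other directions
  have h1 : (W \ {u, v}).card ≤ 4 * τ := by
    refine cell_count Qc (W \ {u, v}) τ (by omega) hNc ?_ ?_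
    · intro w hw w' hw' hne
      exact hW w (Finset.mem_sdiff.1 hw).1 w' (Finset.mem_sdiff.1 hw').1 hne
    · intro w hw
      obtain ⟨hwW, hw2⟩ := Finset.mem_sdiff.1 hw
      rw [Finset.mem_insert, Finset.mem_singleton, not_or] at hw2
      by_cases hwf : w ∈ Wf
      swap
      · exact hsmall w hwf hwW Qc (Finset.filter_subset _ _)
      obtain ⟨-, hlt⟩ := hh w (Finset.mem_filter.1 hwf).2
      refine few_two (Z w) _ τ (h w) hlt (Finset.image_subset_image (Finset.filter_subset _ _)) ?_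
      intro y hy y' hy'
      obtain ⟨p, hp, rfl⟩ := Finset.mem_image.1 hy
      obtain ⟨p', hp', rfl⟩ := Finset.mem_image.1 hy'
      have e1 : cell p = cell p' := by
        rw [(Finset.mem_filter.1 hp).2, (Finset.mem_filter.1 hp').2]
      have e2 : |dt u p - dt u p'| < h u :=
        abs_sub_lt_of_floor hhu (congrArg Prod.fst e1)
      have e3 : |dt v p - dt v p'| < h v :=
        abs_sub_lt_of_floor hhv (congrArg Prod.snd e1)
      -- minimality
      have huw : dt u w ≠ 0 := hW u huW w hwW (fun e => hw2.1 e.symm)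
      have hwv : dt w v ≠ 0 := hW w hwW v hvW hw2.2
      have m1 := hmin (u, w) (Finset.mem_offDiag.2 ⟨hu, hwf, fun e => hw2.1 e.symm⟩)
      have m2 := hmin (w, v) (Finset.mem_offDiag.2 ⟨hwf, hv, hw2.2⟩)
      simp only at m1 m2
      have hhw := hpos w hwf
      have k1 : h v * |dt u w| ≤ h w * |dt u v| := by
        rw [div_le_div_iff₀ hd' (abs_pos.2 huw)] at m1
        have : h u * (h v * |dt u w|) ≤ h u * (h w * |dt u v|) := by linarith
        exact le_of_mul_le_mul_left this hhu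
      have k2 : h u * |dt w v| ≤ h w * |dt u v| := by
        rw [div_le_div_iff₀ hd' (abs_pos.2 hwv)] at m2
        have : h v * (h u * |dt w v|) ≤ h v * (h w * |dt u v|) := by linarith
        exact le_of_mul_le_mul_left this hhv
      have e4 : dt u v * (dt w p - dt w p')
          = (dt v p - dt v p') * dt u w + (dt u p - dt u p') * dt w v := by
        simp only [dt]; ring
      have e5 : |dt u v| * |dt w p - dt w p'| < |dt u v| * (2 * h w) := by
        calc |dt u v| * |dt w p - dt w p'|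
            = |(dt v p - dt v p') * dt u w + (dt u p - dt u p') * dt w v| := by
              rw [← abs_mul, e4]
          _ ≤ |(dt v p - dt v p') * dt u w| + |(dt u p - dt u p') * dt w v| := abs_add_le _ _
          _ = |dt v p - dt v p'| * |dt u w| + |dt u p - dt u p'| * |dt w v| := by
              rw [abs_mul, abs_mul]
          _ < h v * |dt u w| + h u * |dt w v| :=
              add_lt_add (mul_lt_mul_of_pos_right e3 (abs_pos.2 huw))
                (mul_lt_mul_of_pos_right e2 (abs_pos.2 hwv))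
          _ ≤ |dt u v| * (2 * h w) := by linarith
      exact lt_of_mul_lt_mul_left e5 hd'.le
  have h2 := Finset.card_le_card_sdiff_add_card (s := W) (t := {u, v})
  have h3 : ({u, v} : Finset (ℝ × ℝ)).card ≤ 2 := Finset.card_le_two
  omega

end Pool.Agent.W_96b415_h42
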