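import Pool.Agent.W_96b415_h42.Cont
import Pool.Agent.W_MP_96b415_co.Main
import Pool.Agent.W_626a77_h48.Adapter

/-!
# Freiman's theorem for finite subsets of the plane

A finite set `S` of points of the plane with `|S + S| ≤ K |S|` is covered by boundedly many
generalized arithmetic progressions of bounded rank and polynomial size (from the theorem for sets
of integers behind our hand-in `QuasiOptimal`, by a linear functional over the rational numbers
which is generic for `S`, and the lattice point argument of the file `Cont`).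
-/

set_option autoImplicit false

open scoped Pointwise

namespace Pool.Agent.W_96b415_h42

open Pool.Agent.W_626a77_h42 Pool.Agent.W_MP_96b415_co

theorem inGap_empty (r : ℕ) (H : ℝ) : InGap r H ∅ := ⟨0, 0, fun p hp => absurd hp (by simp)⟩

/-- The vectors on which the functional must not vanish. -/
noncomputable def test (S : Finset (ℝ × ℝ)) (R N : ℕ) : Finset (ℝ × ℝ) :=
  ((Finset.Icc (0 : ℤ) N ×ˢ (S ×ˢ S)) ×ˢ ((Fintype.piFinset fun _ : Fin R => S) ×ˢ
    (Fintype.piFinset fun _ : Fin R => Finset.Icc (-((N : ℤ) ^ 2)) ((N : ℤ) ^ 2)))).image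
    (fun q => q.1.1 • (q.1.2.1 - q.1.2.2) - ∑ j, q.2.2 j • (q.2.1 j - q.1.2.2))

theorem mem_test {S : Finset (ℝ × ℝ)} {R N : ℕ} {D : ℤ} (hD : 0 ≤ D ∧ D ≤ N) {s s0 : ℝ × ℝ}
    (hs : s ∈ S) (hs0 : s0 ∈ S) {σ : Fin R → ℝ × ℝ} (hσ : ∀ j, σ j ∈ S) {k : Fin R → ℤ}
    (hk : ∀ j, |k j| ≤ (N : ℤ) ^ 2) :
    D • (s - s0) - ∑ j, k j • (σ j - s0) ∈ test S R N := by
  unfold test
  refine Finset.mem_image.2 ⟨((D, (s, s0)), (σ, k)), ?_, rfl⟩
  simp only [Finset.mem_product, Finset.mem_Icc, Fintype.mem_piFinset]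
  exact ⟨⟨hD, hs, hs0⟩, hσ, fun j => abs_le.1 (hk j)⟩

/-- An integer valued generic functional. -/
theorem exists_psi (S Z : Finset (ℝ × ℝ)) : ∃ (ψ : ℝ × ℝ → ℤ) (g : ℝ × ℝ →ₗ[ℚ] ℚ) (m : ℚ),
    m ≠ 0 ∧ (∀ s ∈ S, (ψ s : ℚ) = m * g s) ∧ ∀ z ∈ Z, g z = 0 → z = 0 := by
  classical
  obtain ⟨g, hg⟩ := Module.exists_dual_forall_apply_ne_zero (K := ℚ)
    (fun z : {z : ℝ × ℝ // z ∈ Z.filter (fun z => z ≠ 0)} => (z : ℝ × ℝ))
    (fun z => (Finset.mem_filter.1 z.2).2)
  set m : ℕ := ∏ s ∈ S, (g s).den with hm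
  have hm0 : m ≠ 0 := Finset.prod_ne_zero_iff.2 fun s _ => (g s).den_nz
  have hex : ∀ s : ℝ × ℝ, ∃ z : ℤ, s ∈ S → (z : ℚ) = (m : ℚ) * g s := by
    intro s
    by_cases hs : s ∈ S
    · obtain ⟨e, he⟩ := Finset.dvd_prod_of_mem (fun s => (g s).den) hs
      refine ⟨e * (g s).num, fun _ => ?_⟩
      have h1 : (m : ℚ) = (g s).den * e := by rw [hm, he]; push_cast; rfl
      have h2 : ((g s).den : ℚ) * g s = (g s).num := Rat.den_mul_eq_num _
      rw [h1]
      push_cast
      linear_combination -(e : ℚ) * h2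
    · exact ⟨0, fun h => absurd h hs⟩
  choose ψ hψ using hex
  refine ⟨ψ, g, m, by exact_mod_cast hm0, hψ, ?_⟩
  intro z hz hgz
  by_contra hne
  exact hg ⟨z, Finset.mem_filter.2 ⟨hz, hne⟩⟩ hgz

theorem freiman_plane (K : ℝ) : ∃ (R : ℕ) (C : ℝ), 1 ≤ C ∧ ∀ S : Finset (ℝ × ℝ),
    ((S + S).card : ℝ) ≤ K * S.card → ∃ (T : Finset ℤ) (W : ℤ → Finset (ℝ × ℝ)),
      (T.card : ℝ) ≤ C ∧ (∀ s ∈ S, ∃ t ∈ T, s ∈ W t) ∧
      ∀ t, W t ⊆ S ∧ InGap R ((C * S.card) ^ 2) (W t) := by
  classical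
  obtain ⟨C0, hC0, hF⟩ := Pool.Agent.QFR.quasi_optimal
  set R : ℕ := ⌊C0 * (1 + Real.log K)⌋₊ with hR
  set E : ℝ := Real.exp (C0 * (1 + Real.log K) * (1 + Real.log (1 + Real.log K))) with hE
  set c : ℝ := 5 ^ (R * (R + 1)) with hc
  have hc1 : 1 ≤ c := one_le_pow₀ (by norm_num)
  have hE0 : 0 < E := Real.exp_pos _
  refine ⟨R, E + c, by linarith, ?_⟩
  intro S hS
  rcases S.eq_empty_or_nonempty with rfl | hne
  · refine ⟨∅, fun _ => ∅, ?_, ?_, ?_⟩
    · simp only [Finset.card_empty, Nat.cast_zero]; linarith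
    · intro s hs; simp at hs
    · intro t; exact ⟨Finset.Subset.refl _, inGap_empty _ _⟩
  set n := S.card with hn
  have hn1 : 1 ≤ n := hne.card_pos
  set N : ℕ := 5 ^ (R * (R + 1)) * n with hN
  have hN1 : 1 ≤ N := Nat.mul_pos (by positivity) hn1
  obtain ⟨ψ, g, m, hm, hψ, hg⟩ := exists_psi S (test S R N)
  have hinj : Set.InjOn ψ (S : Set (ℝ × ℝ)) := by
    intro s hs s' hs' h
    have h1 : m * g s = m * g s' := by rw [← hψ s hs, ← hψ s' hs', h]
    have h2 : g (s - s') = 0 := by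
      rw [map_sub, mul_left_cancel₀ hm h1, sub_self]
    have h3 : (1 : ℤ) • (s - s') - ∑ j : Fin R, (0 : ℤ) • (s' - s') ∈ test S R N :=
      mem_test ⟨by norm_num, by exact_mod_cast hN1⟩ hs hs' (fun _ => hs')
        (fun _ => by rw [abs_zero]; positivity)
    simp only [one_smul, zero_smul, Finset.sum_const_zero, sub_zero] at h3
    exact sub_eq_zero.1 (hg _ h3 h2)
  set A := S.image ψ with hA
  have hAc : A.card = n := Finset.card_image_of_injOn hinj
  have hAA : (A + A).card ≤ (S + S).card := by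
    have h1 : (A + A).image (Int.cast : ℤ → ℚ) ⊆ (S + S).image (fun x => m * g x) := by
      intro q hq
      obtain ⟨z, hz, rfl⟩ := Finset.mem_image.1 hq
      obtain ⟨a, ha, b, hb, rfl⟩ := Finset.mem_add.1 hz
      obtain ⟨s, hs, rfl⟩ := Finset.mem_image.1 ha
      obtain ⟨s', hs', rfl⟩ := Finset.mem_image.1 hb
      refine Finset.mem_image.2 ⟨s + s', Finset.add_mem_add hs hs', ?_⟩
      push_cast
      rw [hψ s hs, hψ s' hs', map_add, mul_add]
    calc (A + A).card = ((A + A).image (Int.cast : ℤ → ℚ)).card :=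
          (Finset.card_image_of_injective _ Int.cast_injective).symm
      _ ≤ ((S + S).image (fun x => m * g x)).card := Finset.card_le_card h1
      _ ≤ (S + S).card := Finset.card_image_le
  obtain ⟨d, B, v, T, hd, hconv, hcpt, hint, hsymm, hcard, hT, hcov⟩ := hF K A (hne.image ψ) (by
    rw [hAc]
    refine le_trans ?_ hS
    exact_mod_cast hAA)
  have hB : Body B := ⟨hconv, hcpt, hint, hsymm⟩
  have hdR : d ≤ R := Nat.le_floor hd
  have hlat : (lat B).card ≤ n := by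
    rw [card_lat hB.cpt, ← hAc]; exact hcard
  set NY : ℕ := 5 ^ (d * (d + 1)) * (lat B).card with hNY
  have hNYN : NY ≤ N := by
    rw [hNY, hN]
    refine Nat.mul_le_mul (Nat.pow_le_pow_right (by norm_num) ?_) hlat
    exact Nat.mul_le_mul hdR (by omega)
  refine ⟨T, fun t => S.filter (fun s => ∃ x : Fin d → ℤ, rv x ∈ B ∧ ψ s = t + ∑ i, v i * x i),
    by linarith, ?_, ?_⟩
  · intro s hs
    obtain ⟨t, ht, x, hx, hxt⟩ := hcov (ψ s) (Finset.mem_image_of_mem ψ hs)
    exact ⟨t, ht, Finset.mem_filter.2 ⟨hs, x, hx, hxt⟩⟩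
  intro t
  refine ⟨Finset.filter_subset _ _, ?_⟩
  beta_reduce
  set W := S.filter (fun s => ∃ x : Fin d → ℤ, rv x ∈ B ∧ ψ s = t + ∑ i, v i * x i) with hW
  rcases W.eq_empty_or_nonempty with h0 | ⟨s0, hs0⟩
  · rw [h0]; exact inGap_empty _ _
  have hWS : ∀ s ∈ W, s ∈ S := fun s hs => (Finset.mem_filter.1 hs).1
  have hex : ∀ s : ℝ × ℝ, ∃ x : Fin d → ℤ, s ∈ W → rv x ∈ B ∧ ψ s = t + ∑ i, v i * x i := by
    intro s
    by_cases hs : s ∈ W
    · obtain ⟨x, hx⟩ := (Finset.mem_filter.1 hs).2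
      exact ⟨x, fun _ => hx⟩
    · exact ⟨0, fun h => absurd h hs⟩
  choose x hx using hex
  obtain ⟨z, D, hz, hD1, hDN, hk⟩ := container hdR hB (W.image fun s => x s - x s0)
    (Finset.mem_image.2 ⟨s0, hs0, sub_self _⟩) (by
      intro y hy
      obtain ⟨s, hs, rfl⟩ := Finset.mem_image.1 hy
      rw [rv_sub]
      have h1 : rv (x s) ∈ (1 : ℝ) • B := by rw [one_smul]; exact (hx s hs).1
      have h2 : rv (x s0) ∈ (1 : ℝ) • B := by rw [one_smul]; exact (hx s0 hs0).1
      have h3 := hB.sub_mem (by norm_num) (by norm_num) h1 h2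
      norm_num at h3
      exact h3) NY hNY
  have hzex : ∀ j, ∃ s ∈ W, x s - x s0 = z j := fun j => Finset.mem_image.1 (hz j)
  choose σ hσW hσz using hzex
  have hD0 : (D : ℝ) ≠ 0 := by
    have : D ≠ 0 := by omega
    exact_mod_cast this
  refine ⟨s0, fun j => (1 / (D : ℝ)) • (σ j - s0), ?_⟩
  intro s hs
  obtain ⟨k, hk1, hk2⟩ := hk (x s - x s0) (Finset.mem_image_of_mem _ hs)
  have hkN : ∀ j, |k j| ≤ (N : ℤ) ^ 2 := by
    intro j
    refine (hk1 j).trans ?_
    have h1 : (D : ℤ) ≤ N := by exact_mod_cast hDN.trans hNYN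
    have h2 : (NY : ℤ) ≤ N := by exact_mod_cast hNYN
    rw [sq]
    exact mul_le_mul h1 h2 (by positivity) (by positivity)
  refine ⟨k, ?_, ?_⟩
  · intro j
    have h1 : |((k j : ℤ) : ℝ)| ≤ (N : ℝ) ^ 2 := by exact_mod_cast hkN j
    refine h1.trans (pow_le_pow_left₀ (by positivity) ?_ 2)
    rw [hN]
    push_cast
    rw [← hc]
    refine mul_le_mul_of_nonneg_right (by linarith) (by positivity)
  · -- the relation for `ψ`
    have hφ : ∀ s ∈ W, ψ s - ψ s0 = ∑ i, v i * (x s - x s0) i := by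
      intro s hs
      rw [(hx s hs).2, (hx s0 hs0).2]
      simp only [Pi.sub_apply, mul_sub, Finset.sum_sub_distrib]
      ring
    have h1 : (D : ℤ) * (ψ s - ψ s0) = ∑ j, k j * (ψ (σ j) - ψ s0) := by
      have h2 : ∑ i, v i * ((D : ℤ) • (x s - x s0)) i = ∑ i, v i * (∑ j, k j • z j) i := by
        rw [hk2]
      rw [hφ s hs]
      calc (D : ℤ) * ∑ i, v i * (x s - x s0) i = ∑ i, v i * ((D : ℤ) • (x s - x s0)) i := by
            rw [Finset.mul_sum]
            refine Finset.sum_congr rfl fun i _ => ?_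
            simp only [Pi.smul_apply, smul_eq_mul]
            ring
        _ = ∑ i, v i * (∑ j, k j • z j) i := h2
        _ = ∑ i, ∑ j, k j * (v i * z j i) := by
            refine Finset.sum_congr rfl fun i _ => ?_
            rw [Finset.sum_apply, Finset.mul_sum]
            refine Finset.sum_congr rfl fun j _ => ?_
            simp only [Pi.smul_apply, smul_eq_mul]
            ring
        _ = ∑ j, k j * (ψ (σ j) - ψ s0) := by
            rw [Finset.sum_comm]
            refine Finset.sum_congr rfl fun j _ => ?_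
            rw [hφ (σ j) (hσW j), hσz j, Finset.mul_sum]
    have h2 : g ((D : ℤ) • (s - s0) - ∑ j, k j • (σ j - s0)) = 0 := by
      have h3 : (D : ℚ) * (m * g s - m * g s0) = ∑ j, (k j : ℚ) * (m * g (σ j) - m * g s0) := by
        have h4 := congrArg (Int.cast : ℤ → ℚ) h1
        push_cast at h4
        rw [hψ s (hWS s hs), hψ s0 (hWS s0 hs0)] at h4
        rw [h4]
        refine Finset.sum_congr rfl fun j _ => ?_
        rw [hψ (σ j) (hWS _ (hσW j))]
      rw [map_sub, map_sum, map_zsmul, map_sub]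
      apply mul_left_cancel₀ hm
      rw [mul_zero, mul_sub, Finset.mul_sum, sub_eq_zero]
      calc m * ((D : ℤ) • (g s - g s0)) = (D : ℚ) * (m * g s - m * g s0) := by
            rw [zsmul_eq_mul]; push_cast; ring
        _ = ∑ j, (k j : ℚ) * (m * g (σ j) - m * g s0) := h3
        _ = _ := by
            refine Finset.sum_congr rfl fun j _ => ?_
            rw [map_zsmul, map_sub, zsmul_eq_mul]
            ring
    have h3 := hg _ (mem_test ⟨by positivity, by exact_mod_cast hDN.trans hNYN⟩ (hWS s hs)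
      (hWS s0 hs0) (fun j => hWS _ (hσW j)) hkN) h2
    rw [sub_eq_zero] at h3
    have h4 : (D : ℝ) • (s - s0) = ∑ j, ((k j : ℤ) : ℝ) • (σ j - s0) := by
      have h5 : (D : ℝ) • (s - s0) = (D : ℤ) • (s - s0) := by
        rw [natCast_zsmul]
        exact Nat.cast_smul_eq_nsmul ℝ D (s - s0)
      rw [h5, h3]
      refine Finset.sum_congr rfl fun j _ => ?_
      exact (Int.cast_smul_eq_zsmul ℝ (k j) (σ j - s0)).symm
    have h5 : s - s0 = (1 / (D : ℝ)) • ∑ j, ((k j : ℤ) : ℝ) • (σ j - s0) := by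
      rw [← h4, smul_smul, one_div, inv_mul_cancel₀ hD0, one_smul]
    rw [← sub_eq_iff_eq_add', h5, Finset.smul_sum]
    refine Finset.sum_congr rfl fun j _ => ?_
    rw [smul_smul, smul_smul, mul_comm]

end Pool.Agent.W_96b415_h42
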