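import Pool.Agent.W_96b415_h42.Dir

/-!
# Perpendicular pairs of differences

The number of pairs `(I, J)` of differences of a planar set `Q` of small doubling with `I ≠ 0` and
`I ⊥ J` is at most `C (n log n + (largest number of parallel differences) ^ 2)`.
-/

set_option autoImplicit false

open scoped Pointwise

namespace Pool.Agent.W_96b415_h42

/-- the number of differences parallel to `w` -/
noncomputable def kk (Q : Finset (ℝ × ℝ)) (w : ℝ × ℝ) : ℕ :=
  ((Q - Q).filter (fun e => dt w e = 0)).card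

theorem kk_pos {Q : Finset (ℝ × ℝ)} (hQ : Q.Nonempty) (w : ℝ × ℝ) : 1 ≤ kk Q w := by
  obtain ⟨q, hq⟩ := hQ
  refine Finset.card_pos.2 ⟨0, Finset.mem_filter.2 ⟨?_, by simp [dt]⟩⟩
  rw [← sub_self q]
  exact Finset.sub_mem_sub hq hq

theorem card_sub_le {Q : Finset (ℝ × ℝ)} (hQ : Q.Nonempty) {L : ℝ}
    (hL : ((Q + (Q - Q) + (Q - Q)).card : ℝ) ≤ L * Q.card) :
    ((Q - Q).card : ℝ) ≤ L * Q.card := by
  refine le_trans ?_ hL
  exact_mod_cast Finset.card_le_card_add_left (hQ.add (hQ.sub hQ))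

/-- The number of `k`-rich directions. -/
theorem dir_bound (Q W : Finset (ℝ × ℝ)) (hQ : Q.Nonempty) (k : ℕ) (hk : 1 ≤ k) (L : ℝ) (hL1 : 1 ≤ L)
    (hL : ((Q + (Q - Q) + (Q - Q)).card : ℝ) ≤ L * Q.card)
    (hW : ∀ w ∈ W, ∀ w' ∈ W, w ≠ w' → dt w w' ≠ 0) (hWE : W.card ≤ (Q - Q).card) :
    ((W.filter (fun w => k ≤ kk Q w)).card : ℝ) ≤ 600 * L ^ 3 * (Q.card / (k : ℝ) ^ 2 + 1) := by
  classical
  have hk0 : (0 : ℝ) < k := by exact_mod_cast hk
  set n : ℝ := (Q.card : ℝ) with hn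
  have hn0 : 0 < n := by rw [hn]; exact_mod_cast hQ.card_pos
  set y : ℝ := n / (k : ℝ) ^ 2 with hy
  have hy0 : 0 < y := by positivity
  set τ : ℕ := ⌈36 * L ^ 2 * y⌉₊ + 2 with hτ
  have hτ1 : (τ : ℝ) ≤ 36 * L ^ 2 * y + 3 := by
    rw [hτ]; push_cast
    have := Nat.ceil_lt_add_one (by positivity : (0 : ℝ) ≤ 36 * L ^ 2 * y)
    linarith
  have hL2 : 1 ≤ L ^ 2 := one_le_pow₀ hL1
  have hL3 : 1 ≤ L ^ 3 := one_le_pow₀ hL1
  have hL23 : L ^ 2 ≤ L ^ 3 := pow_le_pow_right₀ hL1 (by norm_num)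
  rcases Nat.lt_or_ge Q.card (4 * τ) with h4 | h4
  · have h5 : ((W.filter (fun w => k ≤ kk Q w)).card : ℝ) ≤ L * n := by
      refine le_trans ?_ (card_sub_le hQ hL)
      exact_mod_cast (Finset.card_filter_le _ _).trans hWE
    have h6 : n ≤ 4 * (36 * L ^ 2 * y + 3) := by
      have : n ≤ 4 * τ := by rw [hn]; exact_mod_cast h4.le
      linarith
    calc _ ≤ L * n := h5
      _ ≤ L * (4 * (36 * L ^ 2 * y + 3)) := mul_le_mul_of_nonneg_left h6 (by linarith)
      _ = 144 * L ^ 3 * y + 12 * L := by ring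
      _ ≤ 600 * L ^ 3 * (y + 1) := by nlinarith
  · have h5 := dir_count Q (W.filter (fun w => k ≤ kk Q w)) k τ L hk (by omega) hL (by
        rw [← hn]
        have h6 : 36 * L ^ 2 * y ≤ τ := by
          rw [hτ]; push_cast
          have := Nat.le_ceil (36 * L ^ 2 * y)
          linarith
        have h7 : 36 * L ^ 2 * n = (36 * L ^ 2 * y) * (k : ℝ) ^ 2 := by
          rw [hy]; field_simp
        rw [h7]
        exact mul_le_mul_of_nonneg_right h6 (by positivity)) h4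
      (fun w hw w' hw' hne => hW w (Finset.mem_filter.1 hw).1 w' (Finset.mem_filter.1 hw').1 hne)
      (fun w hw => (Finset.mem_filter.1 hw).2)
    have h6 : ((W.filter (fun w => k ≤ kk Q w)).card : ℝ) ≤ 4 * τ + 2 := by exact_mod_cast h5
    calc _ ≤ 4 * (τ : ℝ) + 2 := h6
      _ ≤ 4 * (36 * L ^ 2 * y + 3) + 2 := by linarith
      _ ≤ 600 * L ^ 3 * (y + 1) := by nlinarith

theorem sum_four (l : ℕ) : ∑ i ∈ Finset.range (l + 1), (4 : ℝ) ^ i ≤ 2 * 4 ^ l := by
  induction l with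
  | zero => simp
  | succ l ih =>
    rw [Finset.sum_range_succ, pow_succ]
    have : (0 : ℝ) < 4 ^ l := by positivity
    linarith

/-- The sum of the squares of the numbers of parallel differences. -/
theorem sum_sq (Q W : Finset (ℝ × ℝ)) (hQ : Q.Nonempty) (L : ℝ) (hL1 : 1 ≤ L)
    (hL : ((Q + (Q - Q) + (Q - Q)).card : ℝ) ≤ L * Q.card)
    (hW : ∀ w ∈ W, ∀ w' ∈ W, w ≠ w' → dt w w' ≠ 0) (hWE : W.card ≤ (Q - Q).card) (m : ℕ)
    (hm : ∀ w ∈ W, kk Q w ≤ m) :
    ∑ w ∈ W, (kk Q w : ℝ) ^ 2 ≤ 2400 * L ^ 3 * (Q.card * (Nat.log 2 m + 1) + 2 * (m : ℝ) ^ 2) := by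
  classical
  set l := Nat.log 2 m with hl
  have hmaps : ∀ w ∈ W, Nat.log 2 (kk Q w) ∈ Finset.range (l + 1) := by
    intro w hw
    rw [Finset.mem_range, Nat.lt_succ_iff]
    exact Nat.log_mono_right (hm w hw)
  rcases W.eq_empty_or_nonempty with rfl | ⟨w0, hw0⟩
  · simp only [Finset.sum_empty]; positivity
  have hm0 : m ≠ 0 := by
    have := (kk_pos hQ w0).trans (hm w0 hw0)
    omega
  rw [← Finset.sum_fiberwise_of_maps_to hmaps]
  have h1 : ∀ i ∈ Finset.range (l + 1),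
      ∑ w ∈ W.filter (fun w => Nat.log 2 (kk Q w) = i), (kk Q w : ℝ) ^ 2
        ≤ 2400 * L ^ 3 * (Q.card + 4 ^ i) := by
    intro i _
    have h2 : ∀ w ∈ W.filter (fun w => Nat.log 2 (kk Q w) = i), (kk Q w : ℝ) ^ 2 ≤ 4 ^ (i + 1) := by
      intro w hw
      obtain ⟨-, e⟩ := Finset.mem_filter.1 hw
      have h3 : kk Q w < 2 ^ (i + 1) := by
        rw [← e]; exact Nat.lt_pow_succ_log_self (by norm_num) _
      have h4 : (kk Q w : ℝ) ≤ 2 ^ (i + 1) := by exact_mod_cast h3.le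
      calc (kk Q w : ℝ) ^ 2 ≤ (2 ^ (i + 1)) ^ 2 := pow_le_pow_left₀ (by positivity) h4 2
        _ = 4 ^ (i + 1) := by rw [← pow_mul, mul_comm, pow_mul]; norm_num
    have h3 : W.filter (fun w => Nat.log 2 (kk Q w) = i) ⊆ W.filter (fun w => 2 ^ i ≤ kk Q w) := by
      intro w hw
      obtain ⟨hwW, e⟩ := Finset.mem_filter.1 hw
      refine Finset.mem_filter.2 ⟨hwW, ?_⟩
      rw [← e]
      exact Nat.pow_log_le_self 2 (by have := kk_pos hQ w; omega)
    have h4 := dir_bound Q W hQ (2 ^ i) Nat.one_le_two_pow L hL1 hL hW hWE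
    have h5 : (((2 ^ i : ℕ) : ℝ)) ^ 2 = 4 ^ i := by
      push_cast
      rw [← pow_mul, mul_comm, pow_mul]; norm_num
    rw [h5] at h4
    calc ∑ w ∈ W.filter (fun w => Nat.log 2 (kk Q w) = i), (kk Q w : ℝ) ^ 2
        ≤ ∑ _w ∈ W.filter (fun w => Nat.log 2 (kk Q w) = i), (4 : ℝ) ^ (i + 1) :=
          Finset.sum_le_sum h2
      _ = (W.filter (fun w => Nat.log 2 (kk Q w) = i)).card * (4 : ℝ) ^ (i + 1) := by
          rw [Finset.sum_const, nsmul_eq_mul]
      _ ≤ (W.filter (fun w => 2 ^ i ≤ kk Q w)).card * (4 : ℝ) ^ (i + 1) := by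
          refine mul_le_mul_of_nonneg_right ?_ (by positivity)
          exact_mod_cast Finset.card_le_card h3
      _ ≤ (600 * L ^ 3 * (Q.card / 4 ^ i + 1)) * (4 : ℝ) ^ (i + 1) :=
          mul_le_mul_of_nonneg_right h4 (by positivity)
      _ = 2400 * L ^ 3 * (Q.card + 4 ^ i) := by
          rw [pow_succ]
          field_simp
          ring
  refine (Finset.sum_le_sum h1).trans ?_
  rw [← Finset.mul_sum, Finset.sum_add_distrib, Finset.sum_const, Finset.card_range, nsmul_eq_mul]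
  refine mul_le_mul_of_nonneg_left ?_ (by positivity)
  have h2 := sum_four l
  have h3 : (4 : ℝ) ^ l ≤ (m : ℝ) ^ 2 := by
    have h4 : 2 ^ l ≤ m := Nat.pow_log_le_self 2 hm0
    have h5 : (2 : ℝ) ^ l ≤ m := by exact_mod_cast h4
    calc (4 : ℝ) ^ l = (2 ^ l) ^ 2 := by rw [← pow_mul, mul_comm, pow_mul]; norm_num
      _ ≤ (m : ℝ) ^ 2 := pow_le_pow_left₀ (by positivity) h5 2
  push_cast
  linarith

/-- a canonical vector in the direction of `e` -/
noncomputable def sl (e : ℝ × ℝ) : ℝ × ℝ := if e.1 = 0 then (0, 1) else (1, e.2 / e.1)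

theorem sl_dt {e : ℝ × ℝ} (he : e ≠ 0) (f : ℝ × ℝ) : dt (sl e) f = 0 ↔ dt e f = 0 := by
  unfold sl
  split_ifs with h
  · have h2 : e.2 ≠ 0 := fun h' => he (Prod.ext h h')
    simp only [dt, h, zero_mul, zero_sub, one_mul, neg_eq_zero, mul_eq_zero]
    tauto
  · simp only [dt, one_mul]
    constructor
    · intro h'
      have : e.1 * (f.2 - e.2 / e.1 * f.1) = e.1 * f.2 - e.2 * f.1 := by field_simp
      rw [← this, h', mul_zero]
    · intro h'
      apply mul_left_cancel₀ h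
      rw [mul_zero, ← h']
      field_simp

theorem sl_inj {e f : ℝ × ℝ} (h : dt (sl e) (sl f) = 0) : sl e = sl f := by
  unfold sl at h ⊢
  split_ifs with h1 h2 h2
  · rfl
  · simp [dt, h1, h2] at h
  · simp [dt, h1, h2] at h
  · simp only [dt, h1, h2, if_false, one_mul, mul_one] at h
    exact Prod.ext rfl (by simp only; linarith)

/-- rotation by a right angle -/
def rot (e : ℝ × ℝ) : ℝ × ℝ := (-e.2, e.1)

theorem rot_inj : Function.Injective rot := by
  intro a b h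
  have h1 := congrArg Prod.fst h
  have h2 := congrArg Prod.snd h
  simp only [rot] at h1 h2
  exact Prod.ext h2 (by linarith)

theorem dt_rot (a b : ℝ × ℝ) : dt (rot a) (rot b) = dt a b := by
  simp only [dt, rot]; ring

theorem rot_sl {e : ℝ × ℝ} (he : e ≠ 0) (f : ℝ × ℝ) : dt (rot (sl e)) f = 0 ↔ dt (rot e) f = 0 := by
  have h1 : ∀ a : ℝ × ℝ, dt (rot a) f = 0 ↔ dt a (rot f) = 0 := by
    intro a
    have : dt (rot a) f = -dt a (rot f) := by simp only [dt, rot]; ring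
    rw [this, neg_eq_zero]
  rw [h1, h1]
  exact sl_dt he _

/-- The number of perpendicular pairs of differences. -/
theorem perp_sum (Q : Finset (ℝ × ℝ)) (hQ : Q.Nonempty) (L : ℝ) (hL1 : 1 ≤ L)
    (hL : ((Q + (Q - Q) + (Q - Q)).card : ℝ) ≤ L * Q.card) (m : ℕ)
    (hm : ∀ w : ℝ × ℝ, w ≠ 0 → kk Q w ≤ m) :
    ∑ e ∈ (Q - Q).erase 0, (kk Q (rot e) : ℝ)
      ≤ 2400 * L ^ 3 * (Q.card * (Nat.log 2 m + 1) + 2 * (m : ℝ) ^ 2) := by
  classical
  set E := (Q - Q).erase 0 with hE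
  set W := E.image sl with hW
  have hE0 : ∀ e ∈ E, e ≠ 0 := fun e he => (Finset.mem_erase.1 he).1
  have hsl0 : ∀ e : ℝ × ℝ, sl e ≠ 0 := by
    intro e h
    unfold sl at h
    split_ifs at h with h1
    · exact one_ne_zero (congrArg Prod.snd h)
    · exact one_ne_zero (congrArg Prod.fst h)
  have hWnp : ∀ w ∈ W, ∀ w' ∈ W, w ≠ w' → dt w w' ≠ 0 := by
    intro w hw w' hw' hne h
    obtain ⟨e, -, rfl⟩ := Finset.mem_image.1 hw
    obtain ⟨f, -, rfl⟩ := Finset.mem_image.1 hw'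
    exact hne (sl_inj h)
  have hWc : W.card ≤ (Q - Q).card :=
    Finset.card_image_le.trans (Finset.card_le_card (Finset.erase_subset _ _))
  have hW0 : ∀ w ∈ W, w ≠ 0 := by
    intro w hw
    obtain ⟨e, -, rfl⟩ := Finset.mem_image.1 hw
    exact hsl0 e
  have h1 := sum_sq Q W hQ L hL1 hL hWnp hWc m (fun w hw => hm w (hW0 w hw))
  have h2 := sum_sq Q (W.image rot) hQ L hL1 hL (by
      intro w hw w' hw' hne
      obtain ⟨e, he, rfl⟩ := Finset.mem_image.1 hw
      obtain ⟨f, hf, rfl⟩ := Finset.mem_image.1 hw'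
      rw [dt_rot]
      exact hWnp e he f hf (fun h => hne (by rw [h]))) (Finset.card_image_le.trans hWc) m (by
      intro w hw
      obtain ⟨e, he, rfl⟩ := Finset.mem_image.1 hw
      refine hm _ fun h => hW0 e he ?_
      apply rot_inj
      rw [h]
      ext <;> simp [rot])
  rw [Finset.sum_image (fun a _ b _ h => rot_inj h)] at h2
  -- group by directions
  have h3 : ∑ e ∈ E, (kk Q (rot e) : ℝ) ≤ ∑ w ∈ W, (kk Q w : ℝ) * kk Q (rot w) := by
    rw [← Finset.sum_fiberwise_of_maps_to (fun e he => Finset.mem_image_of_mem sl he : ∀ e ∈ E,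
      sl e ∈ W)]
    refine Finset.sum_le_sum fun w _ => ?_
    have h4 : ∀ e ∈ E.filter (fun e => sl e = w), (kk Q (rot e) : ℝ) ≤ kk Q (rot w) := by
      intro e he
      obtain ⟨heE, rfl⟩ := Finset.mem_filter.1 he
      have : kk Q (rot e) = kk Q (rot (sl e)) := by
        unfold kk
        congr 1
        ext f
        rw [Finset.mem_filter, Finset.mem_filter, rot_sl (hE0 e heE)]
      rw [this]
    have h5 : ((E.filter (fun e => sl e = w)).card : ℝ) ≤ kk Q w := by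
      unfold kk
      have : E.filter (fun e => sl e = w) ⊆ (Q - Q).filter (fun e => dt w e = 0) := by
        intro e he
        obtain ⟨heE, rfl⟩ := Finset.mem_filter.1 he
        refine Finset.mem_filter.2 ⟨(Finset.mem_erase.1 heE).2, ?_⟩
        rw [sl_dt (hE0 e heE)]
        simp only [dt]; ring
      exact_mod_cast Finset.card_le_card this
    calc ∑ e ∈ E.filter (fun e => sl e = w), (kk Q (rot e) : ℝ)
        ≤ ∑ _e ∈ E.filter (fun e => sl e = w), (kk Q (rot w) : ℝ) := Finset.sum_le_sum h4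
      _ = (E.filter (fun e => sl e = w)).card * (kk Q (rot w) : ℝ) := by
          rw [Finset.sum_const, nsmul_eq_mul]
      _ ≤ (kk Q w : ℝ) * kk Q (rot w) := mul_le_mul_of_nonneg_right h5 (by positivity)
  have h4 : ∑ w ∈ W, (kk Q w : ℝ) * kk Q (rot w)
      ≤ ∑ w ∈ W, (((kk Q w : ℝ) ^ 2 + (kk Q (rot w) : ℝ) ^ 2) / 2) := by
    refine Finset.sum_le_sum fun w _ => ?_
    nlinarith [sq_nonneg ((kk Q w : ℝ) - kk Q (rot w))]
  rw [← Finset.sum_div, Finset.sum_add_distrib] at h4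
  linarith

end Pool.Agent.W_96b415_h42
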